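import Pool.Agent.H13.TFQ.M93

/-!
# Project KM, module Lin: linearization over the Laurent polynomials of a finite ring

`StabHom`, `blk`, `rei`, `mapU` are in `Pool/Agent/H95/KM/SqDefs.lean`, `mono`, `tU` in
`Pool/Agent/H95/KM/LinDefs.lean`.

`B` is a finite (noncommutative) ring, `Δ : StabHom B[T;T⁻¹] M` kills the units `g` with `g, g⁻¹`
over `B[t]` (`hpos`), those with `g, g⁻¹` over `B[t⁻¹]` (`hneg`) and the scalar matrices `t`
(`hT`).  Claim: `Δ.D g = Δ.D (tU 1 e)` for some idempotent matrix `e` over `B`.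

PROOF.
(a) Scalar: multiplying `g` by a power of the scalar matrix `t = tU 1 1` (central, killed by `hT`)
    we may assume that `g` has entries in `B[t]` (but not necessarily `g⁻¹`).
(b) Higman's trick: let `g = ∑_{j ≤ d} g_j t^j`, `d ≥ 2`, put `g' = g - g_d t^d`.  In size `m ⊕ m`
    `[[g, 0], [0, 1]] · ` elementary matrices over `B[t]` (killed by `hpos`):
    `[[1, g_d t^{d-1}], [0, 1]] · [[g, 0], [0, 1]] · [[1, 0], [-t, 1]]
      = [[g - g_d t^d, g_d t^{d-1}], [-t, 1]] = [[g', g_d t^{d-1}], [-t, 1]]`,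
    a polynomial matrix of degree `≤ d - 1`, invertible over `B[t, t⁻¹]`, with the same `Δ.D`
    (`map_blk`, `map_mul`, `map_one`).  By induction on `d` we reach `d ≤ 1`: `g = g_0 + g_1 t`.
(c) `c = g_0 + g_1` is invertible over `B` (apply the ring homomorphism `ev1` to `g` and `g⁻¹`).
    `c` as a constant unit is killed by `hpos`.  Replacing `g` by `c⁻¹ g` we get
    `g = (1 - ν) + ν t`, `ν = c⁻¹ g_1 ∈ A := Mat_m(B)`, a finite ring.
(d) Let `L > 0` be such that `e = ν ^ L` and `f = (1 - ν) ^ L` are idempotent (in a finite monoid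
    every element has an idempotent positive power, e.g. `exists_pow_idempotent`-type argument;
    take a common multiple for `ν` and `1 - ν`).  `e, f, ν` commute.
    Claim: `e f = 0`.  Put `h = e f` (idempotent, commutes with `ν`).  There are `ν', μ'` in
    `h A h` (e.g. `ν' = ν ^ (L - 1) h`, as `ν ν' = e h = h`; similarly `μ'` for `1 - ν`) with
    `ν ν' = ν' ν = h`, `(1 - ν) μ' = μ' (1 - ν) = h`.  Let `k = g⁻¹ = ∑_j k_j t^j` and
    suppose `h ≠ 0`.  `((1 - ν) + ν t) k = 1` gives `(1 - ν) k_j + ν k_{j-1} = δ_{j0}`.  Multiply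
    by `h` on the left: with `κ_j = h k_j`: `(1 - ν) κ_j + ν κ_{j-1} = δ_{j0} h`.
    As `(1 - ν)` and `ν` are invertible on `h A`: going up from `j = -∞` (where `κ_j = 0`) for
    `j < 0`: `κ_j = 0`; going down from `j = +∞` for `j > 0`: `ν κ_{j-1} = -(1-ν) κ_j`, so
    `κ_{j-1} = 0` for all `j ≥ 1`, in particular `κ_0 = 0`.  Then the equation for `j = 0` gives
    `h = (1 - ν) κ_0 + ν κ_{-1} = 0`.
(e) So `e f = 0`.  Write `g = g₊ · (t e + 1 - e) · g₋` with
    `g₊ = e + (1 - e)((1 - ν) + ν t)` over `B[t]` and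
    `g₋ = (1 - e) + e (ν + (1 - ν) t⁻¹)` over `B[t⁻¹]`
    (all coefficients commute; `e · e t (ν + (1-ν) t⁻¹) = e (ν t + (1 - ν))`).
    `g₊⁻¹` is over `B[t]`: on the part `1 - e`: `ν^L (1 - e) = 0`, so `ν (1 - e)` is nilpotent;
    hence `(1 - ν)(1 - e) + e` is invertible in `A` and
    `g₊ = (e + (1 - e)(1 - ν)) (1 + N t)` with `N` nilpotent commuting, inverse
    `∑ (-N)^i t^i`.  `g₋⁻¹` is over `B[t⁻¹]`: on `e`, `ν` is invertible (`ν ν^{L-1} e = e`) and
    `(1 - ν)^L e = f e = 0`, so `(1 - ν) e` is nilpotent; `g₋ = ((1 - e) + e ν)(1 + N' t⁻¹)`.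
    So `hpos g₊` and `hneg g₋` give `Δ.D g = Δ.D (tU 1 e)`.
-/

set_option autoImplicit false

open Matrix
open scoped LaurentPolynomial

universe u v w

namespace Pool.Agent.H95.KM

open Pool.Agent.H71.FJ

section LinAux

variable {B : Type u} [Ring B]

/-! ### positive and negative matrices -/

theorem lin_isPos_mul {x y : B[T;T⁻¹]} (hx : IsPos x) (hy : IsPos y) : IsPos (x * y) := by
  obtain ⟨p, rfl⟩ := hx.exists_posHom
  obtain ⟨q, rfl⟩ := hy.exists_posHom
  rw [← map_mul]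
  exact isPos_posHom _

theorem lin_isNeg_mul {x y : B[T;T⁻¹]} (hx : IsNeg x) (hy : IsNeg y) : IsNeg (x * y) := by
  obtain ⟨p, rfl⟩ := hx.exists_negHom
  obtain ⟨q, rfl⟩ := hy.exists_negHom
  rw [← map_mul]
  exact isNeg_negHom _

theorem lin_isPos_neg {x : B[T;T⁻¹]} (hx : IsPos x) : IsPos (-x) := by
  intro k hk
  rw [AddMonoidAlgebra.coeff_neg, Finsupp.neg_apply, hx k hk, neg_zero]

theorem lin_isNeg_neg {x : B[T;T⁻¹]} (hx : IsNeg x) : IsNeg (-x) := by
  intro k hk
  rw [AddMonoidAlgebra.coeff_neg, Finsupp.neg_apply, hx k hk, neg_zero]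

/-- matrices over `B[t]` -/
def MPos {m n : Type*} (X : Matrix m n B[T;T⁻¹]) : Prop := ∀ i j, IsPos (X i j)

/-- matrices over `B[t⁻¹]` -/
def MNeg {m n : Type*} (X : Matrix m n B[T;T⁻¹]) : Prop := ∀ i j, IsNeg (X i j)

theorem lin_isPos_sum {ι : Type*} (s : Finset ι) (f : ι → B[T;T⁻¹]) (h : ∀ i ∈ s, IsPos (f i)) :
    IsPos (∑ i ∈ s, f i) := by
  classical
  induction s using Finset.induction_on with
  | empty => simpa using isPos_zero
  | insert a s ha ih =>
    rw [Finset.sum_insert ha]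
    exact (h a (Finset.mem_insert_self _ _)).add
      (ih (fun i hi => h i (Finset.mem_insert_of_mem hi)))

theorem lin_isNeg_sum {ι : Type*} (s : Finset ι) (f : ι → B[T;T⁻¹]) (h : ∀ i ∈ s, IsNeg (f i)) :
    IsNeg (∑ i ∈ s, f i) := by
  classical
  induction s using Finset.induction_on with
  | empty => simpa using isNeg_zero
  | insert a s ha ih =>
    rw [Finset.sum_insert ha]
    exact (h a (Finset.mem_insert_self _ _)).add
      (ih (fun i hi => h i (Finset.mem_insert_of_mem hi)))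

theorem MPos.mul {l m n : Type*} [Fintype m] {X : Matrix l m B[T;T⁻¹]}
    {Y : Matrix m n B[T;T⁻¹]} (hX : MPos X) (hY : MPos Y) : MPos (X * Y) := by
  intro i j
  rw [Matrix.mul_apply]
  exact lin_isPos_sum _ _ (fun k _ => lin_isPos_mul (hX i k) (hY k j))

theorem MNeg.mul {l m n : Type*} [Fintype m] {X : Matrix l m B[T;T⁻¹]}
    {Y : Matrix m n B[T;T⁻¹]} (hX : MNeg X) (hY : MNeg Y) : MNeg (X * Y) := by
  intro i j
  rw [Matrix.mul_apply]
  exact lin_isNeg_sum _ _ (fun k _ => lin_isNeg_mul (hX i k) (hY k j))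

theorem MPos.add {m n : Type*} {X Y : Matrix m n B[T;T⁻¹]} (hX : MPos X) (hY : MPos Y) :
    MPos (X + Y) := fun i j => (hX i j).add (hY i j)

theorem MNeg.add {m n : Type*} {X Y : Matrix m n B[T;T⁻¹]} (hX : MNeg X) (hY : MNeg Y) :
    MNeg (X + Y) := fun i j => (hX i j).add (hY i j)

theorem MPos.neg {m n : Type*} {X : Matrix m n B[T;T⁻¹]} (hX : MPos X) :
    MPos (-X) := fun i j => lin_isPos_neg (hX i j)

theorem MNeg.neg {m n : Type*} {X : Matrix m n B[T;T⁻¹]} (hX : MNeg X) :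
    MNeg (-X) := fun i j => lin_isNeg_neg (hX i j)

theorem MPos.sub {m n : Type*} {X Y : Matrix m n B[T;T⁻¹]} (hX : MPos X) (hY : MPos Y) :
    MPos (X - Y) := by
  rw [sub_eq_add_neg]
  exact hX.add hY.neg

theorem MNeg.sub {m n : Type*} {X Y : Matrix m n B[T;T⁻¹]} (hX : MNeg X) (hY : MNeg Y) :
    MNeg (X - Y) := by
  rw [sub_eq_add_neg]
  exact hX.add hY.neg

theorem MPos.zero {m n : Type*} : MPos (0 : Matrix m n B[T;T⁻¹]) := fun _ _ => isPos_zero

theorem MNeg.zero {m n : Type*} : MNeg (0 : Matrix m n B[T;T⁻¹]) := fun _ _ => isNeg_zero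

theorem mono_pos {m n : Type*} {k : ℤ} (hk : 0 ≤ k) (X : Matrix m n B) : MPos (mono k X) :=
  fun i j => isPos_single hk (X i j)

theorem mono_neg {m n : Type*} {k : ℤ} (hk : k ≤ 0) (X : Matrix m n B) : MNeg (mono k X) :=
  fun i j => isNeg_single hk (X i j)

theorem MPos.one {m : Type*} [Fintype m] [DecidableEq m] : MPos (1 : Matrix m m B[T;T⁻¹]) := by
  rw [← mono_one]
  exact mono_pos le_rfl _

theorem MNeg.one {m : Type*} [Fintype m] [DecidableEq m] : MNeg (1 : Matrix m m B[T;T⁻¹]) := by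
  rw [← mono_one]
  exact mono_neg le_rfl _

theorem MPos.geom {m : Type*} [Fintype m] [DecidableEq m] {X : Matrix m m B[T;T⁻¹]}
    (hX : MPos X) (L : ℕ) : MPos (∑ i ∈ Finset.range L, X ^ i) := by
  have hp : ∀ i : ℕ, MPos (X ^ i) := by
    intro i
    induction i with
    | zero => rw [pow_zero]; exact MPos.one
    | succ i ih => rw [pow_succ]; exact ih.mul hX
  induction L with
  | zero => simpa using MPos.zero
  | succ L ih =>
    rw [Finset.sum_range_succ]
    exact ih.add (hp L)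

theorem MNeg.geom {m : Type*} [Fintype m] [DecidableEq m] {X : Matrix m m B[T;T⁻¹]}
    (hX : MNeg X) (L : ℕ) : MNeg (∑ i ∈ Finset.range L, X ^ i) := by
  have hp : ∀ i : ℕ, MNeg (X ^ i) := by
    intro i
    induction i with
    | zero => rw [pow_zero]; exact MNeg.one
    | succ i ih => rw [pow_succ]; exact ih.mul hX
  induction L with
  | zero => simpa using MNeg.zero
  | succ L ih =>
    rw [Finset.sum_range_succ]
    exact ih.add (hp L)

theorem MPos.fromBlocks {l m n o : Type*} {X : Matrix n l B[T;T⁻¹]} {Y : Matrix n m B[T;T⁻¹]}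
    {Z : Matrix o l B[T;T⁻¹]} {W : Matrix o m B[T;T⁻¹]} (hX : MPos X) (hY : MPos Y)
    (hZ : MPos Z) (hW : MPos W) : MPos (fromBlocks X Y Z W) := by
  rintro (i | i) (j | j)
  · exact hX i j
  · exact hY i j
  · exact hZ i j
  · exact hW i j

/-! ### coefficients -/

/-- the coefficient matrix of `t^k` -/
def cf (k : ℤ) {m n : Type*} (X : Matrix m n B[T;T⁻¹]) : Matrix m n B :=
  X.map (fun z => z.coeff k)

theorem lin_coeff_single_mul (k l : ℤ) (r : B) (y : B[T;T⁻¹]) :
    (AddMonoidAlgebra.single k r * y).coeff l = r * y.coeff (l - k) := by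
  apply AddMonoidAlgebra.coeff_single_mul_eq_mul_coeff
  intro a _
  constructor
  · intro h
    omega
  · intro h
    omega

theorem cf_mono_mul (k l : ℤ) {m n p : Type*} [Fintype n] (X : Matrix m n B)
    (Y : Matrix n p B[T;T⁻¹]) : cf l (mono k X * Y) = X * cf (l - k) Y := by
  ext i j : 2
  simp only [cf, mono, Matrix.map_apply, Matrix.mul_apply, AddMonoidAlgebra.coeff_sum,
    Finsupp.finsetSum_apply, lin_coeff_single_mul]

theorem cf_add (l : ℤ) {m n : Type*} (X Y : Matrix m n B[T;T⁻¹]) :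
    cf l (X + Y) = cf l X + cf l Y := by
  ext i j : 2
  simp only [cf, Matrix.map_apply, Matrix.add_apply, AddMonoidAlgebra.coeff_add,
    Finsupp.add_apply]

theorem cf_mono (k l : ℤ) {m n : Type*} (X : Matrix m n B) :
    cf l (mono k X) = if k = l then X else 0 := by
  classical
  ext i j : 2
  simp only [cf, mono, Matrix.map_apply, AddMonoidAlgebra.coeff_single, Finsupp.single_apply]
  split_ifs <;> rfl

theorem cf_ext {m n : Type*} {X Y : Matrix m n B[T;T⁻¹]} (h : ∀ l, cf l X = cf l Y) : X = Y := by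
  ext i j : 1
  apply ext_coeff
  intro k
  exact congrFun (congrFun (h k) i) j

/-- degrees in `[0, d]` -/
def Bd (d : ℤ) {m n : Type*} (X : Matrix m n B[T;T⁻¹]) : Prop :=
  ∀ l, (l < 0 ∨ d < l) → cf l X = 0

theorem lin_exists_bound {m n : Type*} [Finite m] [Finite n] (X : Matrix m n B[T;T⁻¹]) :
    ∃ N : ℕ, ∀ l : ℤ, (l < -N ∨ (N : ℤ) < l) → cf l X = 0 := by
  classical
  have := Fintype.ofFinite m
  have := Fintype.ofFinite n
  refine ⟨∑ i, ∑ j, ∑ k ∈ (X i j).coeff.support, k.natAbs, ?_⟩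
  intro l hl
  ext i j : 2
  change (X i j).coeff l = 0
  by_contra hne
  have h1 : l ∈ (X i j).coeff.support := Finsupp.mem_support_iff.2 hne
  have h2 : l.natAbs ≤ ∑ k ∈ (X i j).coeff.support, k.natAbs :=
    Finset.single_le_sum (f := fun k : ℤ => k.natAbs) (fun _ _ => Nat.zero_le _) h1
  have h3 : ∑ k ∈ (X i j).coeff.support, k.natAbs ≤
      ∑ j, ∑ k ∈ (X i j).coeff.support, k.natAbs :=
    Finset.single_le_sum (f := fun j => ∑ k ∈ (X i j).coeff.support, k.natAbs)
      (fun _ _ => Nat.zero_le _) (Finset.mem_univ j)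
  have h4 : ∑ j, ∑ k ∈ (X i j).coeff.support, k.natAbs ≤
      ∑ i, ∑ j, ∑ k ∈ (X i j).coeff.support, k.natAbs :=
    Finset.single_le_sum (f := fun i => ∑ j, ∑ k ∈ (X i j).coeff.support, k.natAbs)
      (fun _ _ => Nat.zero_le _) (Finset.mem_univ i)
  omega

/-! ### idempotent powers in finite rings -/

theorem lin_pow_of_idem {A : Type*} [Monoid A] {x : A} (hx : x * x = x) (n : ℕ) (hn : 0 < n) :
    x ^ n = x := by
  induction n with
  | zero => omega
  | succ n ih =>
    rcases Nat.eq_zero_or_pos n with rfl | h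
    · simp
    · rw [pow_succ, ih h, hx]

theorem lin_exists_idem {A : Type*} [Monoid A] [Finite A] (x : A) :
    ∃ L : ℕ, 0 < L ∧ x ^ L * x ^ L = x ^ L := by
  obtain ⟨a, b, hab, h⟩ := Finite.exists_ne_map_eq_of_infinite (fun n : ℕ => x ^ n)
  wlog hlt : a < b generalizing a b
  · exact this b a hab.symm h.symm (by omega)
  have h : x ^ a = x ^ b := h
  have key : ∀ n, a ≤ n → x ^ (n + (b - a)) = x ^ n := by
    intro n hn
    obtain ⟨c, rfl⟩ := Nat.exists_eq_add_of_le hn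
    have h1 : a + c + (b - a) = b + c := by omega
    rw [h1, pow_add, pow_add, h]
  have key2 : ∀ k n, a ≤ n → x ^ (n + k * (b - a)) = x ^ n := by
    intro k
    induction k with
    | zero => intro n _; simp
    | succ k ih =>
      intro n hn
      rw [show n + (k + 1) * (b - a) = (n + k * (b - a)) + (b - a) by ring, key _ (by omega),
        ih n hn]
  refine ⟨(a + 1) * (b - a), Nat.mul_pos (by omega) (by omega), ?_⟩
  rw [← pow_add]
  apply key2
  nlinarith [Nat.sub_pos_of_lt hlt]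

theorem lin_exists_idem_two {A : Type*} [Monoid A] [Finite A] (x y : A) :
    ∃ L : ℕ, 0 < L ∧ x ^ L * x ^ L = x ^ L ∧ y ^ L * y ^ L = y ^ L := by
  obtain ⟨L, hL, h⟩ := lin_exists_idem x
  obtain ⟨M, hM, h'⟩ := lin_exists_idem y
  refine ⟨L * M, Nat.mul_pos hL hM, ?_, ?_⟩
  · rw [pow_mul, lin_pow_of_idem h M hM, h]
  · rw [mul_comm, pow_mul, lin_pow_of_idem h' L hL, h']

/-! ### unipotent units -/

/-- `1 - X` for nilpotent `X` -/
def nilU {A : Type*} [Ring A] (X : A) (L : ℕ) (h : X ^ L = 0) : Aˣ where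
  val := 1 - X
  inv := ∑ i ∈ Finset.range L, X ^ i
  val_inv := by rw [mul_neg_geom_sum, h, sub_zero]
  inv_val := by rw [geom_sum_mul_neg, h, sub_zero]

theorem mono_zero_pow {m : Type*} [Fintype m] [DecidableEq m] (X : Matrix m m B) (L : ℕ) :
    (mono 0 X) ^ L = mono 0 (X ^ L) := by
  induction L with
  | zero => rw [pow_zero, pow_zero, mono_one]
  | succ L ih => rw [pow_succ, ih, mono_mul, add_zero, pow_succ]

theorem lin_nil {m : Type*} [Fintype m] [DecidableEq m] (X : Matrix m m B) (k : ℤ) (L : ℕ)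
    (h : X ^ L = 0) : (mono 0 X - mono k X) ^ L = 0 := by
  have h1 : mono 0 X - mono k X = mono 0 X * (mono 0 1 - mono k 1) := by
    rw [mul_sub, mono_mul, mono_mul, mul_one, add_zero, zero_add]
  have h2 : Commute (mono 0 X) (mono 0 (1 : Matrix m m B) - mono k 1) := by
    change mono 0 X * _ = _ * mono 0 X
    rw [mul_sub, sub_mul, mono_mul, mono_mul, mono_mul, mono_mul, mul_one, one_mul, add_zero,
      zero_add, add_zero]
  rw [h1, h2.mul_pow, mono_zero_pow, h, mono_zero, zero_mul]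

theorem cf_fromBlocks (l : ℤ) {a b c d : Type*} (X : Matrix a b B[T;T⁻¹])
    (Y : Matrix a d B[T;T⁻¹]) (Z : Matrix c b B[T;T⁻¹]) (W : Matrix c d B[T;T⁻¹]) :
    cf l (fromBlocks X Y Z W) = fromBlocks (cf l X) (cf l Y) (cf l Z) (cf l W) :=
  fromBlocks_map _ _ _ _ _

theorem cf_neg (l : ℤ) {m n : Type*} (X : Matrix m n B[T;T⁻¹]) : cf l (-X) = - cf l X := by
  ext i j : 2
  simp only [cf, Matrix.map_apply, Matrix.neg_apply, AddMonoidAlgebra.coeff_neg,
    Finsupp.neg_apply]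

theorem cf_sub (l : ℤ) {m n : Type*} (X Y : Matrix m n B[T;T⁻¹]) :
    cf l (X - Y) = cf l X - cf l Y := by
  rw [sub_eq_add_neg, cf_add, cf_neg, sub_eq_add_neg]

theorem cf_one (l : ℤ) {m : Type*} [Fintype m] [DecidableEq m] :
    cf l (1 : Matrix m m B[T;T⁻¹]) = if 0 = l then 1 else 0 := by
  rw [← mono_one, cf_mono]

/-- upper elementary block matrix -/
def upU {Λ : Type*} [Ring Λ] {m : Type} [Fintype m] [DecidableEq m] (X : Matrix m m Λ) :
    (Matrix (m ⊕ m) (m ⊕ m) Λ)ˣ where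
  val := fromBlocks 1 X 0 1
  inv := fromBlocks 1 (-X) 0 1
  val_inv := by simp [fromBlocks_multiply]
  inv_val := by simp [fromBlocks_multiply]

/-- lower elementary block matrix -/
def loU {Λ : Type*} [Ring Λ] {m : Type} [Fintype m] [DecidableEq m] (X : Matrix m m Λ) :
    (Matrix (m ⊕ m) (m ⊕ m) Λ)ˣ where
  val := fromBlocks 1 0 X 1
  inv := fromBlocks 1 0 (-X) 1
  val_inv := by simp [fromBlocks_multiply]
  inv_val := by simp [fromBlocks_multiply]

/-- Higman's reduction to degree one -/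
theorem lin_reduce {M : Type v} [AddCommGroup M] (Δ : StabHom B[T;T⁻¹] M)
    (hpos : ∀ {m : Type} [Fintype m] [DecidableEq m] (g : (Matrix m m B[T;T⁻¹])ˣ),
      MPos (g : Matrix m m B[T;T⁻¹]) →
      MPos ((g⁻¹ : (Matrix m m B[T;T⁻¹])ˣ) : Matrix m m B[T;T⁻¹]) → Δ.D g = 0) (d : ℕ) :
    ∀ {m : Type} [Fintype m] [DecidableEq m] (g : (Matrix m m B[T;T⁻¹])ˣ),
      Bd ((d : ℤ) + 1) (g : Matrix m m B[T;T⁻¹]) →
      ∃ (n : Type) (_ : Fintype n) (_ : DecidableEq n) (h : (Matrix n n B[T;T⁻¹])ˣ),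
        Bd 1 (h : Matrix n n B[T;T⁻¹]) ∧ Δ.D g = Δ.D h := by
  induction d with
  | zero =>
    intro m _ _ g hg
    refine ⟨m, inferInstance, inferInstance, g, ?_, rfl⟩
    simpa using hg
  | succ d ih =>
    intro m _ _ g hg
    set c : Matrix m m B := cf ((d : ℤ) + 2) (g : Matrix m m B[T;T⁻¹]) with hc
    set G := upU (mono ((d : ℤ) + 1) c) * blk g (1 : (Matrix m m B[T;T⁻¹])ˣ) *
      loU (- mono 1 (1 : Matrix m m B)) with hG
    have hval : (G : Matrix (m ⊕ m) (m ⊕ m) B[T;T⁻¹]) =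
        fromBlocks ((g : Matrix m m B[T;T⁻¹]) - mono ((d : ℤ) + 2) c) (mono ((d : ℤ) + 1) c)
          (- mono 1 (1 : Matrix m m B)) 1 := by
      change fromBlocks 1 (mono ((d : ℤ) + 1) c) 0 1 *
        fromBlocks (g : Matrix m m B[T;T⁻¹]) 0 0 ((1 : (Matrix m m B[T;T⁻¹])ˣ) :
          Matrix m m B[T;T⁻¹]) * fromBlocks 1 0 (- mono 1 (1 : Matrix m m B)) 1 = _
      rw [fromBlocks_multiply, fromBlocks_multiply]
      congr 1
      · simp only [one_mul, mul_zero, add_zero, Units.val_one, mul_one, zero_add, mul_neg,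
          mono_mul]
        rw [← sub_eq_add_neg]
        congr 2
      · simp
      · simp
      · simp
    have hD : Δ.D G = Δ.D g := by
      rw [hG, Δ.map_mul, Δ.map_mul, Δ.map_blk, Δ.map_one, add_zero]
      have h1 : Δ.D (upU (mono ((d : ℤ) + 1) c)) = 0 := by
        apply hpos
        · exact MPos.fromBlocks MPos.one (mono_pos (by omega) _) MPos.zero MPos.one
        · exact MPos.fromBlocks MPos.one (mono_pos (by omega) _).neg MPos.zero MPos.one
      have h2 : Δ.D (loU (- mono 1 (1 : Matrix m m B))) = 0 := by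
        apply hpos
        · exact MPos.fromBlocks MPos.one MPos.zero (mono_pos (by omega) _).neg MPos.one
        · exact MPos.fromBlocks MPos.one MPos.zero (mono_pos (by omega) _).neg.neg MPos.one
      rw [h1, h2, zero_add, add_zero]
    have hB : Bd ((d : ℤ) + 1) (G : Matrix (m ⊕ m) (m ⊕ m) B[T;T⁻¹]) := by
      intro l hl
      rw [hval, cf_fromBlocks, cf_sub, cf_mono, cf_mono, cf_neg, cf_mono, cf_one]
      rw [if_neg (by omega : ¬ (d : ℤ) + 1 = l), if_neg (by omega : ¬ (1 : ℤ) = l),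
        if_neg (by omega : ¬ (0 : ℤ) = l), neg_zero]
      by_cases h : (d : ℤ) + 2 = l
      · rw [if_pos h, ← h, ← hc, sub_self, fromBlocks_zero]
      · rw [if_neg h, hg l (by push_cast; omega), sub_zero, fromBlocks_zero]
    obtain ⟨n, i1, i2, h, hh1, hh2⟩ := ih G hB
    exact ⟨n, i1, i2, h, hh1, by rw [← hD]; exact hh2⟩

/-- the two Fitting idempotents are orthogonal -/
theorem lin_orth {m : Type} [Fintype m] [DecidableEq m] (g : (Matrix m m B[T;T⁻¹])ˣ)
    (ν : Matrix m m B) (hg : (g : Matrix m m B[T;T⁻¹]) = mono 0 (1 - ν) + mono 1 ν) (L : ℕ)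
    (hL : 0 < L) (he : ν ^ L * ν ^ L = ν ^ L)
    (hf : (1 - ν) ^ L * (1 - ν) ^ L = (1 - ν) ^ L) : ν ^ L * (1 - ν) ^ L = 0 := by
  have hcomm : Commute ν (1 - ν) := (Commute.one_right ν).sub_right (Commute.refl ν)
  set k : Matrix m m B[T;T⁻¹] := ((g⁻¹ : (Matrix m m B[T;T⁻¹])ˣ) : Matrix m m B[T;T⁻¹]) with hk
  obtain ⟨h, hh⟩ : ∃ h, h = ν ^ L * (1 - ν) ^ L := ⟨_, rfl⟩
  rw [← hh]
  have hν : Commute h ν := by
    rw [hh]
    exact ((Commute.refl ν).pow_left L).mul_left (hcomm.symm.pow_left L)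
  have hμ : Commute h (1 - ν) := by
    rw [hh]
    exact (hcomm.pow_left L).mul_left ((Commute.refl (1 - ν)).pow_left L)
  have hef : Commute (ν ^ L) ((1 - ν) ^ L) := hcomm.pow_pow L L
  have heh : ν ^ L * h = h := by rw [hh, ← mul_assoc, he]
  have hfh : (1 - ν) ^ L * h = h := by rw [hh, hef.eq, ← mul_assoc, hf]
  have hgk : (g : Matrix m m B[T;T⁻¹]) * k = 1 := by rw [hk, Units.mul_inv]
  obtain ⟨N, hN⟩ := lin_exists_bound k
  have eqn : ∀ l : ℤ, (1 - ν) * (h * cf l k) + ν * (h * cf (l - 1) k) =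
      if 0 = l then h else 0 := by
    intro l
    have h1 := congrArg (cf l) hgk
    rw [hg, add_mul, cf_add, cf_mono_mul, cf_mono_mul, cf_one, sub_zero] at h1
    have e1 : (1 - ν) * (h * cf l k) = h * ((1 - ν) * cf l k) := by
      rw [← mul_assoc, ← hμ.eq, mul_assoc]
    have e2 : ν * (h * cf (l - 1) k) = h * (ν * cf (l - 1) k) := by
      rw [← mul_assoc, ← hν.eq, mul_assoc]
    rw [e1, e2, ← mul_add, h1]
    split_ifs <;> simp
  obtain ⟨L', rfl⟩ : ∃ L', L = L' + 1 := ⟨L - 1, by omega⟩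
  have cancel1 : ∀ X, (1 - ν) * (h * X) = 0 → h * X = 0 := by
    intro X hX
    rw [← hfh, mul_assoc, pow_succ, mul_assoc, hX, mul_zero]
  have cancel2 : ∀ X, ν * (h * X) = 0 → h * X = 0 := by
    intro X hX
    rw [← heh, mul_assoc, pow_succ, mul_assoc, hX, mul_zero]
  have up : ∀ n : ℕ, ∀ l : ℤ, l ≤ -(N : ℤ) - 1 + n → l < 0 → h * cf l k = 0 := by
    intro n
    induction n with
    | zero =>
      intro l hl _
      rw [hN l (by omega), mul_zero]
    | succ n ih =>
      intro l hl hl0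
      by_cases hl' : l ≤ -(N : ℤ) - 1 + n
      · exact ih l hl' hl0
      · have h1 := eqn l
        rw [ih (l - 1) (by push_cast at hl; omega) (by omega), mul_zero, add_zero,
          if_neg (by omega)] at h1
        exact cancel1 _ h1
  have down : ∀ n : ℕ, ∀ l : ℤ, (N : ℤ) + 1 - n ≤ l → 0 ≤ l → h * cf l k = 0 := by
    intro n
    induction n with
    | zero =>
      intro l hl _
      rw [hN l (by push_cast at hl; omega), mul_zero]
    | succ n ih =>
      intro l hl hl0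
      by_cases hl' : (N : ℤ) + 1 - n ≤ l
      · exact ih l hl' hl0
      · have h1 := eqn (l + 1)
        rw [ih (l + 1) (by push_cast at hl; omega) (by omega), mul_zero, zero_add,
          if_neg (by omega), add_sub_cancel_right] at h1
        exact cancel2 _ h1
  have h0 := eqn 0
  rw [down (N + 1) 0 (by push_cast; omega) le_rfl,
    up (N + 1) (0 - 1) (by push_cast; omega) (by omega), mul_zero, mul_zero, add_zero,
    if_pos rfl] at h0
  exact h0.symm

theorem lin_fac {m : Type*} [Fintype m] [DecidableEq m] (e q x y : Matrix m m B)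
    (hxe : x * e = 0) (hxq : x * q = x) (hey : e * y = y) (hqy : q * y = 0) (hxy : x * y = 0) :
    (1 - (mono 0 x - mono 1 x)) * (mono 1 e + mono 0 q) * (1 - (mono 0 y - mono (-1) y)) =
      mono 0 (q - x + y) + mono 1 (e + x - y) := by
  have s1 : (1 - (mono 0 x - mono 1 x)) * (mono 1 e + mono 0 q) =
      mono 1 e + mono 0 q - mono 0 x + mono 1 x := by
    simp only [sub_mul, mul_add, one_mul, mono_mul, hxe, hxq, mono_zero, add_zero, zero_add]
    abel
  have s2 : (mono 1 e + mono 0 q - mono 0 x + mono 1 x) * (mono 0 y - mono (-1) y) =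
      mono 1 y - mono 0 y := by
    simp only [mul_sub, sub_mul, add_mul, mono_mul, hey, hqy, hxy, mono_zero, add_zero,
      sub_zero, add_neg_cancel]
  rw [s1, mul_sub, s2, mul_one, mono_add, mono_sub, mono_sub 1, mono_add]
  abel

end LinAux

theorem linearize {B : Type u} [Ring B] [Finite B] {M : Type v} [AddCommGroup M]
    (Δ : StabHom B[T;T⁻¹] M)
    (hpos : ∀ {m : Type} [Fintype m] [DecidableEq m] (g : (Matrix m m B[T;T⁻¹])ˣ),
      (∀ i j, IsPos ((g : Matrix m m B[T;T⁻¹]) i j)) →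
      (∀ i j, IsPos (((g⁻¹ : (Matrix m m B[T;T⁻¹])ˣ) : Matrix m m B[T;T⁻¹]) i j)) → Δ.D g = 0)
    (hneg : ∀ {m : Type} [Fintype m] [DecidableEq m] (g : (Matrix m m B[T;T⁻¹])ˣ),
      (∀ i j, IsNeg ((g : Matrix m m B[T;T⁻¹]) i j)) →
      (∀ i j, IsNeg (((g⁻¹ : (Matrix m m B[T;T⁻¹])ˣ) : Matrix m m B[T;T⁻¹]) i j)) → Δ.D g = 0)
    (hT : ∀ {m : Type} [Fintype m] [DecidableEq m],
      Δ.D (tU 1 (1 : Matrix m m B) one_idem) = 0)
    {m : Type} [Fintype m] [DecidableEq m] (g : (Matrix m m B[T;T⁻¹])ˣ) :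
    ∃ (n : Type) (_ : Fintype n) (_ : DecidableEq n) (e : Matrix n n B) (he : e * e = e),
      Δ.D g = Δ.D (tU 1 e he) := by
  have hpos' : ∀ {m : Type} [Fintype m] [DecidableEq m] (g : (Matrix m m B[T;T⁻¹])ˣ),
      MPos (g : Matrix m m B[T;T⁻¹]) →
      MPos ((g⁻¹ : (Matrix m m B[T;T⁻¹])ˣ) : Matrix m m B[T;T⁻¹]) → Δ.D g = 0 :=
    fun g h1 h2 => hpos g h1 h2
  -- (a)
  obtain ⟨N, hN⟩ := lin_exists_bound (g : Matrix m m B[T;T⁻¹])
  set τ : (Matrix m m B[T;T⁻¹])ˣ := tU 1 (1 : Matrix m m B) one_idem with hτ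
  have hτp : ∀ n : ℕ, ((τ ^ n : (Matrix m m B[T;T⁻¹])ˣ) : Matrix m m B[T;T⁻¹]) =
      mono (n : ℤ) 1 := by
    intro n
    induction n with
    | zero => simp [mono_one]
    | succ n ih =>
      rw [pow_succ, Units.val_mul, ih, hτ, tU_val, sub_self, mono_zero, add_zero, mono_mul,
        mul_one]
      push_cast
      rfl
  have hτD : ∀ n : ℕ, Δ.D (τ ^ n) = 0 := by
    intro n
    induction n with
    | zero => rw [pow_zero, Δ.map_one]
    | succ n ih => rw [pow_succ, Δ.map_mul, ih, hT, add_zero]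
  have hB1 : Bd (((2 * N : ℕ) : ℤ) + 1) ((τ ^ N * g : (Matrix m m B[T;T⁻¹])ˣ) :
      Matrix m m B[T;T⁻¹]) := by
    intro l hl
    rw [Units.val_mul, hτp, cf_mono_mul, one_mul]
    apply hN
    push_cast at hl
    omega
  obtain ⟨n, i1, i2, g1, hg1, hD1⟩ := lin_reduce Δ hpos' (2 * N) _ hB1
  rw [Δ.map_mul, hτD, zero_add] at hD1
  rw [hD1]
  clear hD1 hB1 hτD hτp hτ τ hN N g
  -- (c)
  set g₀ := cf 0 (g1 : Matrix n n B[T;T⁻¹]) with hg₀
  set g₁ := cf 1 (g1 : Matrix n n B[T;T⁻¹]) with hg₁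
  have hval : (g1 : Matrix n n B[T;T⁻¹]) = mono 0 g₀ + mono 1 g₁ := by
    apply cf_ext
    intro l
    rw [cf_add, cf_mono, cf_mono]
    by_cases h0 : (0 : ℤ) = l
    · rw [if_pos h0, if_neg (by omega), add_zero, ← h0]
    · by_cases h1 : (1 : ℤ) = l
      · rw [if_neg h0, if_pos h1, zero_add, ← h1]
      · rw [if_neg h0, if_neg h1, add_zero]
        exact hg1 l (by omega)
  have hev : ∀ (k : ℤ) (X : Matrix n n B), (mono k X).map (ev1 B) = X := by
    intro k X
    ext i j : 2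
    exact ev1_single k _
  set cU : (Matrix n n B)ˣ := mapU (ev1 B) g1 with hcU
  have hcv : (cU : Matrix n n B) = g₀ + g₁ := by
    change (g1 : Matrix n n B[T;T⁻¹]).map (ev1 B) = _
    rw [hval, Matrix.map_add _ (map_add _), hev, hev]
  set ν : Matrix n n B := ((cU⁻¹ : (Matrix n n B)ˣ) : Matrix n n B) * g₁ with hν
  have hcst : ∀ X : Matrix n n B, X.map (cst B) = mono 0 X := fun X => rfl
  have hg0 : ((cU⁻¹ : (Matrix n n B)ˣ) : Matrix n n B) * g₀ = 1 - ν := by
    rw [hν, eq_sub_iff_add_eq, ← mul_add, ← hcv, Units.inv_mul]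
  obtain ⟨g2, hg2⟩ : ∃ g2 : (Matrix n n B[T;T⁻¹])ˣ, g2 = (mapU (cst B) cU)⁻¹ * g1 := ⟨_, rfl⟩
  have hD2 : Δ.D g2 = Δ.D g1 := by
    rw [hg2, Δ.map_mul, Δ.map_inv, hpos', neg_zero, zero_add]
    · exact mono_pos le_rfl _
    · exact mono_pos le_rfl _
  have hval2 : (g2 : Matrix n n B[T;T⁻¹]) = mono 0 (1 - ν) + mono 1 ν := by
    rw [hg2, Units.val_mul]
    change (((cU⁻¹ : (Matrix n n B)ˣ) : Matrix n n B)).map (cst B) * _ = _
    rw [hcst, hval, mul_add, mono_mul, mono_mul, hg0, ← hν, add_zero, zero_add]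
  rw [← hD2]
  -- (d)
  obtain ⟨L, hL, he, hf⟩ := lin_exists_idem_two ν (1 - ν)
  have horth := lin_orth g2 ν hval2 L hL he hf
  have hcomm : Commute ν (1 - ν) := (Commute.one_right ν).sub_right (Commute.refl ν)
  set e : Matrix n n B := ν ^ L with hedef
  have heν : Commute e ν := (Commute.refl ν).pow_left L
  have heμ : Commute e (1 - ν) := hcomm.pow_left L
  -- (e)
  have hx : ((1 - e) * ν) ^ L = 0 := by
    have h1 : Commute (1 - e) ν := (Commute.one_left ν).sub_left heν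
    rw [h1.mul_pow, ← hedef]
    obtain ⟨L', rfl⟩ : ∃ L', L = L' + 1 := ⟨L - 1, by omega⟩
    rw [pow_succ, mul_assoc, sub_mul, one_mul, he, sub_self, mul_zero]
  have hy : (e * (1 - ν)) ^ L = 0 := by
    rw [heμ.mul_pow]
    rw [lin_pow_of_idem he L hL, horth]
  refine ⟨n, i1, i2, e, he, ?_⟩
  have hX := lin_nil ((1 - e) * ν) 1 L hx
  have hY := lin_nil (e * (1 - ν)) (-1) L hy
  have hfac : g2 = nilU _ L hX * tU 1 e he * nilU _ L hY := by
    apply Units.ext
    rw [Units.val_mul, Units.val_mul, hval2]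
    change _ = (1 - (mono 0 ((1 - e) * ν) - mono 1 ((1 - e) * ν))) *
      (mono 1 e + mono 0 (1 - e)) * (1 - (mono 0 (e * (1 - ν)) - mono (-1) (e * (1 - ν))))
    have a1 : (1 - e) * ν * e = 0 := by
      rw [mul_assoc, ← heν.eq, ← mul_assoc, sub_mul, one_mul, he, sub_self, zero_mul]
    have a2 : (1 - e) * ν * (1 - e) = (1 - e) * ν := by rw [mul_sub, mul_one, a1, sub_zero]
    have a3 : e * (e * (1 - ν)) = e * (1 - ν) := by rw [← mul_assoc, he]
    have a4 : (1 - e) * (e * (1 - ν)) = 0 := by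
      rw [← mul_assoc, sub_mul, one_mul, he, sub_self, zero_mul]
    have a5 : (1 - e) * ν * (e * (1 - ν)) = 0 := by rw [← mul_assoc, a1, zero_mul]
    rw [lin_fac e (1 - e) _ _ a1 a2 a3 a4 a5]
    have t1 : ν = e + (1 - e) * ν - e * (1 - ν) := by noncomm_ring
    have t2 : 1 - ν = 1 - e - (1 - e) * ν + e * (1 - ν) := by noncomm_ring
    rw [← t1, ← t2]
  rw [hfac, Δ.map_mul, Δ.map_mul]
  have hp : Δ.D (nilU _ L hX) = 0 := by
    apply hpos'
    · exact MPos.one.sub ((mono_pos le_rfl _).sub (mono_pos (by omega) _))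
    · exact MPos.geom ((mono_pos le_rfl _).sub (mono_pos (by omega) _)) L
  have hn : Δ.D (nilU _ L hY) = 0 := by
    apply hneg
    · exact MNeg.one.sub ((mono_neg le_rfl _).sub (mono_neg (by omega) _))
    · exact MNeg.geom ((mono_neg le_rfl _).sub (mono_neg (by omega) _)) L
  rw [hp, hn, zero_add, add_zero]

end Pool.Agent.H95.KM
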