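import Pool.Agent.H13.TFQ.M93

/-!
# Project KM, module Ded: `K₀(D) = K₀(D[t, t⁻¹])` for a Dedekind domain `D`

PROOF.  By `K0.exists_sub` it suffices to treat the class of one idempotent matrix `E` over
`D' = D[t, t⁻¹]` (index `Fin k`); it even suffices to find idempotent matrices `f₀, f₁` over `D` with
`MatEquiv (fromBlocks E 0 0 (f₁.map (cst D))) (f₀.map (cst D))`, since then
`[E] = K0.map (cst D) ([f₀] - [f₁])` and `ev1 ∘ cst = id`.

For a finite set `I` of consecutive integers let `D^k_I` be the module of vectors `v ∈ D'^k` whose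
components have support in `I` (a free `D`-module of finite rank, e.g. `I × Fin k → D`) and
`P_I = {v ∈ D^k_I : E v = v}`, the kernel of a `D`-linear map between finite free `D`-modules.
As `D` is a Dedekind domain, `D^k_I / P_I` embeds into a finite free module, so it is finitely
generated and torsion free, hence projective (Mathlib: torsion free over a Dedekind domain is
flat, and flat + finitely presented is projective: `Module.Flat.projective_of_finitePresentation`).
So `P_I` is a direct summand of `D^k_I`, i.e. `P_I` is the image of an idempotent matrix `f_I` over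
`D` with index set `I × Fin k`.
Let all entries of `E` be supported in `[-d, d]`, `a = -d - 1`, `b = d + 1` (or any `a ≤ -d`,
`b ≥ d`), `I = [a, b]`, `I' = [a, b - 1]`, `f₀ = f_I`, `f₁ = f_{I'}`.  (`P = {v ∈ D'^k : E v = v}`.)

  `β : D' ⊗ P_I → P`, `∑ t^i ⊗ v_i ↦ ∑ t^i v_i` is onto, with the `D'`-linear section
  `s(v) = ∑_j v_j ⊗ E e_j` (`v = ∑_j v_j e_j`, `E v = v`, `E e_j ∈ P_I`).
  `α : D' ⊗ P_{I'} → D' ⊗ P_I`, `α (t^i ⊗ v) = t^{i+1} ⊗ v - t^i ⊗ t v` is injective with image
  `ker β`: if `∑_i t^i v_i = 0` with `v_i ∈ P_I` (finitely many nonzero) then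
  `w_j = ∑_{i > j} t^{i-j-1} v_i = - ∑_{i ≤ j} t^{i-j-1} v_i` has degrees `≥ a` by the first
  expression and `≤ b - 1` by the second, so `w_j ∈ P_{I'}`; it is zero for `j` large and for `j`
  very negative; and `α (∑ t^j ⊗ w_j) = ∑_j t^j ⊗ (w_{j-1} - t w_j) = ∑_j t^j ⊗ v_j`.
  Injectivity: if `w_{j-1} = t w_j` for all `j` with finitely many `w_j ≠ 0` then all `w_j = 0`.

So `D' ⊗ P_I ≅ P ⊕ D' ⊗ P_{I'}`, which gives the matrix equivalence.  (A general lemma: if `e : n × n`
and `f : m × m` are idempotent matrices over a commutative ring `Λ` and the ranges of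
`Matrix.toLin' e` and `Matrix.toLin' f` are isomorphic as `Λ`-modules then `MatEquiv e f`.  The
range of `toLin' (f_I.map (cst D))` on `(I × Fin k → D')` consists of the vectors all of whose
coefficient vectors (coefficient of `t^i`) are in `P_I`; so it can be thought of as
`{v : ℤ →₀ P_I}`.  `D' ⊗ P_I` may also be replaced by `LaurentPolynomial`-like functions
`ℤ →₀ (Fin k → D')` with values in `P_I`.)
-/

set_option autoImplicit false

open Matrix
open scoped LaurentPolynomial

universe u v w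

namespace Pool.Agent.H95.KM

open Pool.Agent.H71.FJ

section DedWindow

variable {Λ : Type u} [CommRing Λ] {K : Type v}

/-- extension by zero of a function on `Fin M × K` -/
private def dedExt {M : ℕ} (w : Fin M × K → Λ) (i : K) (n : ℕ) : Λ :=
  if h : n < M then w (⟨n, h⟩, i) else 0

private theorem dedExt_of_le {M : ℕ} (w : Fin M × K → Λ) (i : K) {n : ℕ} (h : M ≤ n) :
    dedExt w i n = 0 := dif_neg (by omega)

private theorem dedExt_fin {M : ℕ} (w : Fin M × K → Λ) (i : K) (n : Fin M) :
    dedExt w i n = w (n, i) := dif_pos n.2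

private theorem dedExt_add {M : ℕ} (w w' : Fin M × K → Λ) (i : K) (n : ℕ) :
    dedExt (w + w') i n = dedExt w i n + dedExt w' i n := by
  unfold dedExt
  split_ifs
  · rfl
  · rw [add_zero]

private theorem dedExt_smul {M : ℕ} (c : Λ) (w : Fin M × K → Λ) (i : K) (n : ℕ) :
    dedExt (c • w) i n = c * dedExt w i n := by
  unfold dedExt
  split_ifs
  · rfl
  · rw [mul_zero]

/-- `v ↦ ∑ tⁿ vₙ` -/
private def dedB (N : ℕ) (t : Λ) : (Fin N × K → Λ) →ₗ[Λ] (K → Λ) where
  toFun u i := ∑ n : Fin N, t ^ (n : ℕ) * u (n, i)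
  map_add' u u' := by
    funext i
    simp only [Pi.add_apply, mul_add, Finset.sum_add_distrib]
  map_smul' c u := by
    funext i
    simp only [Pi.smul_apply, smul_eq_mul, RingHom.id_apply, Finset.mul_sum]
    exact Finset.sum_congr rfl fun n _ => by ring

private theorem dedB_apply (N : ℕ) (t : Λ) (u : Fin N × K → Λ) (i : K) :
    dedB N t u i = ∑ n : Fin N, t ^ (n : ℕ) * u (n, i) := rfl

/-- multiplication by `t - s` -/
private def dedA (M : ℕ) (t : Λ) : (Fin M × K → Λ) →ₗ[Λ] (Fin (M + 1) × K → Λ) where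
  toFun w p := t * dedExt w p.2 p.1 - if (p.1 : ℕ) = 0 then 0 else dedExt w p.2 (p.1 - 1)
  map_add' w w' := by
    funext p
    simp only [Pi.add_apply, dedExt_add]
    split_ifs <;> ring
  map_smul' c w := by
    funext p
    simp only [Pi.smul_apply, dedExt_smul, smul_eq_mul, RingHom.id_apply]
    split_ifs <;> ring

private theorem dedA_apply (M : ℕ) (t : Λ) (w : Fin M × K → Λ) (p : Fin (M + 1) × K) :
    dedA M t w p = t * dedExt w p.2 p.1 -
      if (p.1 : ℕ) = 0 then 0 else dedExt w p.2 (p.1 - 1) := rfl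

/-- division by `t - s` -/
private def dedC (M : ℕ) (t : Λ) : (Fin (M + 1) × K → Λ) →ₗ[Λ] (Fin M × K → Λ) where
  toFun u p := -∑ l : Fin (M + 1), if (p.1 : ℕ) < l then t ^ ((l : ℕ) - 1 - p.1) * u (l, p.2) else 0
  map_add' u u' := by
    funext p
    simp only [Pi.add_apply]
    rw [← neg_add, ← Finset.sum_add_distrib]
    congr 1
    exact Finset.sum_congr rfl fun l _ => by split_ifs <;> ring
  map_smul' c u := by
    funext p
    simp only [Pi.smul_apply, smul_eq_mul, RingHom.id_apply]
    rw [mul_neg, Finset.mul_sum]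
    congr 1
    exact Finset.sum_congr rfl fun l _ => by split_ifs <;> ring

private theorem dedC_ext (M : ℕ) (t : Λ) (u : Fin (M + 1) × K → Λ) (i : K) (m : ℕ) :
    dedExt (dedC M t u) i m =
      -∑ l : Fin (M + 1), if m < l then t ^ ((l : ℕ) - 1 - m) * u (l, i) else 0 := by
  unfold dedExt
  split_ifs with h
  · rfl
  · rw [eq_comm, neg_eq_zero]
    apply Finset.sum_eq_zero
    intro l _
    rw [if_neg (by omega)]

private theorem ded_AC (M : ℕ) (t : Λ) (u : Fin (M + 1) × K → Λ) (p : Fin (M + 1) × K) :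
    dedA M t (dedC M t u) p = u p - if (p.1 : ℕ) = 0 then dedB (M + 1) t u p.2 else 0 := by
  obtain ⟨n, i⟩ := p
  rw [dedA_apply, dedB_apply]
  simp only
  rw [dedC_ext, dedC_ext]
  by_cases hn : (n : ℕ) = 0
  · rw [if_pos hn, if_pos hn, sub_zero, mul_neg, Finset.mul_sum, eq_sub_iff_add_eq, neg_add_eq_sub,
      ← Finset.sum_sub_distrib]
    rw [Finset.sum_eq_single n]
    · rw [hn]
      simp
    · intro l _ hl
      have hl' : (n : ℕ) < l := by
        have : (l : ℕ) ≠ n := fun h => hl (Fin.ext h)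
        omega
      rw [if_pos hl', sub_eq_zero]
      rw [← mul_assoc, ← pow_succ']
      congr 2
      omega
    · intro h
      exact absurd (Finset.mem_univ _) h
  · rw [if_neg hn, if_neg hn, sub_zero, mul_neg, Finset.mul_sum, sub_neg_eq_add, neg_add_eq_sub,
      ← Finset.sum_sub_distrib]
    rw [Finset.sum_eq_single n]
    · rw [if_neg (lt_irrefl _), if_pos (by omega)]
      simp
    · intro l _ hl
      have hl' : (l : ℕ) ≠ n := fun h => hl (Fin.ext h)
      by_cases h1 : (n : ℕ) < l
      · rw [if_pos h1, if_pos (by omega), sub_eq_zero, ← mul_assoc, ← pow_succ']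
        congr 2
        omega
      · rw [if_neg h1, if_neg (by omega), mul_zero, sub_zero]
    · intro h
      exact absurd (Finset.mem_univ _) h

private theorem ded_sum (M : ℕ) (t : Λ) (x y : ℕ → Λ) (hx : x M = 0) :
    ∑ n : Fin (M + 1), t ^ (n : ℕ) * (x n - if (n : ℕ) = 0 then 0 else y (n - 1)) =
      ∑ n : Fin M, t ^ (n : ℕ) * x n - t * ∑ n : Fin M, t ^ (n : ℕ) * y n := by
  simp only [mul_sub, Finset.sum_sub_distrib]
  rw [Fin.sum_univ_castSucc, Fin.sum_univ_succ (fun n : Fin (M + 1) => t ^ (n : ℕ) *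
    if (n : ℕ) = 0 then 0 else y (n - 1))]
  simp [hx, pow_succ', Finset.mul_sum, mul_assoc]

private theorem ded_BA (M : ℕ) (t : Λ) (w : Fin M × K → Λ) : dedB (M + 1) t (dedA M t w) = 0 := by
  funext i
  rw [dedB_apply]
  simp only [dedA_apply]
  rw [ded_sum M t (fun n => t * dedExt w i n) (fun n => dedExt w i n)
    (by rw [dedExt_of_le w i le_rfl, mul_zero]), Finset.mul_sum, Pi.zero_apply, sub_eq_zero]
  exact Finset.sum_congr rfl fun n _ => by ring

private theorem ded_A_inj (M : ℕ) (t : Λ) (w : Fin M × K → Λ) (h : dedA M t w = 0) : w = 0 := by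
  have h1 : ∀ i, ∀ j n : ℕ, M ≤ n + j → dedExt w i n = 0 := by
    intro i j
    induction j with
    | zero =>
      intro n hn
      exact dedExt_of_le w i (by omega)
    | succ j ih =>
      intro n hn
      by_cases hn' : M ≤ n
      · exact dedExt_of_le w i hn'
      · have := congrFun h (⟨n + 1, by omega⟩, i)
        rw [dedA_apply] at this
        simp only [Nat.add_eq_zero_iff, one_ne_zero, and_false, if_false, Nat.add_sub_cancel,
          Pi.zero_apply] at this
        rw [ih (n + 1) (by omega), mul_zero, zero_sub, neg_eq_zero] at this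
        exact this
  funext p
  rw [← dedExt_fin w p.2 p.1]
  exact h1 p.2 M p.1 (by omega)

private theorem ded_CA (M : ℕ) (t : Λ) (w : Fin M × K → Λ) : dedC M t (dedA M t w) = w := by
  rw [← sub_eq_zero]
  apply ded_A_inj M t
  rw [map_sub, sub_eq_zero]
  funext p
  rw [ded_AC, ded_BA]
  simp

end DedWindow

section DedLau

variable {D : Type u} [CommRing D] {K : Type v} [Fintype K]

private theorem ded_coeff_cst_mul (a : D) (x : D[T;T⁻¹]) (j : ℤ) :
    (cst D a * x).coeff j = a * x.coeff j := by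
  rw [cst_apply]
  exact AddMonoidAlgebra.coeff_single_zero_mul x a j

private theorem ded_coeff_T_mul (m : ℤ) (x : D[T;T⁻¹]) (j : ℤ) :
    ((LaurentPolynomial.T m : D[T;T⁻¹]) * x).coeff j = x.coeff (j - m) := by
  unfold LaurentPolynomial.T
  rw [AddMonoidAlgebra.coeff_single_mul_eq_mul_coeff (j - m) (fun a _ => by omega), one_mul]

/-- coefficient vector -/
private def dedCf {ι : Type w} (j : ℤ) (u : ι → D[T;T⁻¹]) : ι → D := fun p => (u p).coeff j

/-- `v ↦ ∑ tⁿ vₙ` for constant vectors `vₙ` -/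
private noncomputable def dedPsi (N : ℕ) (v : Fin N × K → D) : K → D[T;T⁻¹] :=
  dedB N (LaurentPolynomial.T 1) (fun p => cst D (v p))

/-- defect -/
private noncomputable def dedL (E : Matrix K K D[T;T⁻¹]) (N : ℕ) :
    (Fin N × K → D) →ₗ[D] (K → D[T;T⁻¹]) where
  toFun v := E *ᵥ dedPsi N v - dedPsi N v
  map_add' v v' := by
    have h : dedPsi N (v + v') = dedPsi N v + dedPsi N v' := by
      unfold dedPsi
      rw [← map_add]
      congr 1
      funext p
      exact map_add _ _ _
    rw [h, mulVec_add]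
    abel
  map_smul' c v := by
    have h : dedPsi N (c • v) = cst D c • dedPsi N v := by
      unfold dedPsi
      rw [← map_smul]
      congr 1
      funext p
      exact map_mul _ _ _
    have h2 : ∀ x : K → D[T;T⁻¹], c • x = cst D c • x := by
      intro x
      funext p
      exact LaurentPolynomial.smul_eq_C_mul c (x p)
    rw [h, mulVec_smul, RingHom.id_apply, h2, smul_sub]

private theorem dedL_apply (E : Matrix K K D[T;T⁻¹]) (N : ℕ) (v : Fin N × K → D) :
    dedL E N v = E *ᵥ dedPsi N v - dedPsi N v := rfl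

omit [Fintype K] in
private theorem dedPsi_A (M : ℕ) (w : Fin M × K → D[T;T⁻¹]) (j : ℤ) :
    dedPsi (M + 1) (dedCf j (dedA M (LaurentPolynomial.T 1) w)) =
      dedPsi M (dedCf (j - 1) w) - (LaurentPolynomial.T 1 : D[T;T⁻¹]) • dedPsi M (dedCf j w) := by
  funext i
  rw [dedPsi, dedB_apply, Pi.sub_apply, Pi.smul_apply, smul_eq_mul, dedPsi, dedPsi, dedB_apply,
    dedB_apply]
  have h1 := ded_sum M (LaurentPolynomial.T 1 : D[T;T⁻¹])
    (fun n => cst D ((dedExt w i n).coeff (j - 1))) (fun n => cst D ((dedExt w i n).coeff j))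
    (by simp only [dedExt_of_le w i le_rfl]; simp)
  simp only [dedExt_fin] at h1
  refine Eq.trans (Finset.sum_congr rfl fun n _ => ?_) h1
  congr 1
  change cst D ((dedA M (LaurentPolynomial.T 1) w (n, i)).coeff j) = _
  rw [dedA_apply]
  simp only
  rw [AddMonoidAlgebra.coeff_sub, Finsupp.sub_apply, ded_coeff_T_mul, map_sub]
  congr 1
  split_ifs
  · simp
  · rfl

private theorem dedL_A (E : Matrix K K D[T;T⁻¹]) (M : ℕ) (w : Fin M × K → D[T;T⁻¹]) (j : ℤ) :
    dedL E (M + 1) (dedCf j (dedA M (LaurentPolynomial.T 1) w)) =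
      dedL E M (dedCf (j - 1) w) -
        (LaurentPolynomial.T 1 : D[T;T⁻¹]) • dedL E M (dedCf j w) := by
  rw [dedL_apply, dedL_apply, dedL_apply, dedPsi_A, mulVec_sub, mulVec_smul, smul_sub]
  abel

private theorem ded_cf_mulVec {ι κ : Type*} [Fintype κ] (f : Matrix ι κ D) (u : κ → D[T;T⁻¹])
    (j : ℤ) : dedCf j ((f.map (cst D)) *ᵥ u) = f *ᵥ dedCf j u := by
  funext p
  simp only [dedCf, mulVec, dotProduct, map_apply, AddMonoidAlgebra.coeff_sum,
    Finsupp.finsetSum_apply, ded_coeff_cst_mul]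

private theorem ded_fix_iff {ι : Type w} [Fintype ι] (f : Matrix ι ι D) (u : ι → D[T;T⁻¹]) :
    (f.map (cst D)) *ᵥ u = u ↔ ∀ j, f *ᵥ dedCf j u = dedCf j u := by
  constructor
  · intro h j
    rw [← ded_cf_mulVec, h]
  · intro h
    funext p
    apply ext_coeff
    intro j
    exact congrFun ((ded_cf_mulVec f u j).trans (h j)) p

/-- some bound for the degrees -/
private theorem ded_bound {ι : Type w} [Finite ι] (u : ι → D[T;T⁻¹]) :
    ∃ d : ℕ, ∀ p, ∀ j : ℤ, (d : ℤ) < |j| → (u p).coeff j = 0 := by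
  have h : ∀ p, ∃ d : ℕ, ∀ j : ℤ, (d : ℤ) < |j| → (u p).coeff j = 0 := by
    intro p
    refine ⟨∑ j ∈ (u p).coeff.support, j.natAbs, fun j hj => ?_⟩
    by_contra hne
    have h1 : j.natAbs ≤ ∑ j ∈ (u p).coeff.support, j.natAbs :=
      Finset.single_le_sum (f := fun j : ℤ => j.natAbs) (fun _ _ => Nat.zero_le _)
        (Finsupp.mem_support_iff.2 hne)
    rw [Int.abs_eq_natAbs] at hj
    omega
  choose d hd using h
  cases nonempty_fintype ι
  refine ⟨∑ p, d p, fun p j hj => hd p j ?_⟩
  have h1 : d p ≤ ∑ p, d p := Finset.single_le_sum (fun _ _ => Nat.zero_le _) (Finset.mem_univ p)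
  omega

/-- the key point: division by `t - s` stays in the module -/
private theorem ded_good (E : Matrix K K D[T;T⁻¹]) (M : ℕ) (w : Fin M × K → D[T;T⁻¹])
    (h : ∀ j, dedL E (M + 1) (dedCf j (dedA M (LaurentPolynomial.T 1) w)) = 0) (j : ℤ) :
    dedL E M (dedCf j w) = 0 := by
  obtain ⟨d, hd⟩ := ded_bound w
  have h1 : ∀ j : ℤ, (d : ℤ) < j → dedL E M (dedCf j w) = 0 := by
    intro j hj
    have h2 : dedCf j w = 0 := by
      funext p
      exact hd p j (lt_of_lt_of_le hj (le_abs_self j))
    rw [h2, map_zero]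
  have h2 : ∀ n : ℕ, ∀ j : ℤ, (d : ℤ) < j + n → dedL E M (dedCf j w) = 0 := by
    intro n
    induction n with
    | zero =>
      intro j hj
      exact h1 j (by simpa using hj)
    | succ n ih =>
      intro j hj
      have h3 := h (j + 1)
      rw [dedL_A, ih (j + 1) (by push_cast at hj; omega), smul_zero, sub_zero,
        add_sub_cancel_right] at h3
      exact h3
  exact h2 (d + j.natAbs + 1) j (by omega)

end DedLau

/-- The kernel of a `D`-linear map from a finite free module to a torsion free module is the image of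
an idempotent matrix. -/
private theorem ded_exists_idem (D : Type u) [CommRing D] [IsDedekindDomain D] {ι : Type v}
    [Fintype ι] [DecidableEq ι] {W : Type w} [AddCommGroup W] [Module D W]
    [Module.IsTorsionFree D W] (L : (ι → D) →ₗ[D] W) :
    ∃ f : Matrix ι ι D, f * f = f ∧ ∀ v, f *ᵥ v = v ↔ L v = 0 := by
  have : Module.IsTorsionFree D (LinearMap.range L) := inferInstance
  have : Module.Flat D (LinearMap.range L) := inferInstance
  have : Module.Finite D (LinearMap.range L) := inferInstance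
  have : Module.FinitePresentation D (LinearMap.range L) :=
    Module.finitePresentation_of_finite D _
  have : Module.Projective D (LinearMap.range L) := Module.Flat.projective_of_finitePresentation
  obtain ⟨s, hs⟩ := Module.projective_lifting_property L.rangeRestrict LinearMap.id
    L.surjective_rangeRestrict
  set g : (ι → D) →ₗ[D] (ι → D) := LinearMap.id - s.comp L.rangeRestrict with hg
  have h1 : ∀ v, L (g v) = 0 := by
    intro v
    have : L.rangeRestrict (s (L.rangeRestrict v)) = L.rangeRestrict v :=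
      LinearMap.congr_fun hs (L.rangeRestrict v)
    have h2 : L (s (L.rangeRestrict v)) = L v := congrArg Subtype.val this
    rw [hg, LinearMap.sub_apply, LinearMap.id_apply, LinearMap.comp_apply, map_sub, h2, sub_self]
  have h3 : ∀ v, L v = 0 → g v = v := by
    intro v hv
    have h4 : L.rangeRestrict v = 0 := Subtype.ext hv
    rw [hg, LinearMap.sub_apply, LinearMap.id_apply, LinearMap.comp_apply, h4, map_zero, sub_zero]
  refine ⟨LinearMap.toMatrix' g, ?_, ?_⟩
  · rw [← LinearMap.toMatrix'_comp]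
    congr 1
    ext1 i
    ext1
    exact h3 _ (h1 _)
  · intro v
    rw [LinearMap.toMatrix'_mulVec]
    constructor
    · intro h
      rw [← h]
      exact h1 v
    · exact h3 v

section DedMain

variable {D : Type u} [CommRing D] [IsDedekindDomain D] {K : Type v} [Fintype K] [DecidableEq K]

omit [IsDedekindDomain D] [Fintype K] [DecidableEq K] in
private theorem ded_matrix_map_col {ι κ : Type*} [Fintype κ] [DecidableEq κ] (f : Matrix ι κ D)
    (c : κ) : (f.map (cst D)) *ᵥ Pi.single c 1 = fun p => cst D ((f *ᵥ Pi.single c 1) p) := by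
  rw [mulVec_single_one, mulVec_single_one]
  rfl

private theorem ded_main (E : Matrix K K D[T;T⁻¹]) (hE : E * E = E) :
    ∃ (N M : ℕ) (f₀ : Matrix (Fin N × K) (Fin N × K) D) (f₁ : Matrix (Fin M × K) (Fin M × K) D),
      f₀ * f₀ = f₀ ∧ f₁ * f₁ = f₁ ∧
      MatEquiv (fromBlocks E 0 0 (f₁.map (cst D))) (f₀.map (cst D)) := by
  obtain ⟨d, hd⟩ := ded_bound (fun p : K × K => E p.1 p.2)
  obtain ⟨f₀, hf₀, hf₀'⟩ := ded_exists_idem D (dedL E (2 * d + 1))
  obtain ⟨f₁, hf₁, hf₁'⟩ := ded_exists_idem D (dedL E (2 * d))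
  refine ⟨2 * d + 1, 2 * d, f₀, f₁, hf₀, hf₁, ?_⟩
  set F0 := f₀.map (cst D) with hF0
  set F1 := f₁.map (cst D) with hF1
  have hF0F0 : F0 * F0 = F0 := by rw [hF0, ← Matrix.map_mul, hf₀]
  have hF1F1 : F1 * F1 = F1 := by rw [hF1, ← Matrix.map_mul, hf₁]
  have fix0 : ∀ u, F0 *ᵥ u = u ↔ ∀ j, dedL E (2 * d + 1) (dedCf j u) = 0 := by
    intro u
    rw [hF0, ded_fix_iff]
    exact forall_congr' fun j => hf₀' _
  have fix1 : ∀ u, F1 *ᵥ u = u ↔ ∀ j, dedL E (2 * d) (dedCf j u) = 0 := by
    intro u
    rw [hF1, ded_fix_iff]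
    exact forall_congr' fun j => hf₁' _
  set t : D[T;T⁻¹] := LaurentPolynomial.T 1 with ht
  set B := LinearMap.toMatrix' (dedB (K := K) (2 * d + 1) t) with hB
  set A := LinearMap.toMatrix' (dedA (K := K) (2 * d) t) with hA
  set C := LinearMap.toMatrix' (dedC (K := K) (2 * d) t) with hC
  have hBv : ∀ u, B *ᵥ u = dedB (2 * d + 1) t u := fun u => LinearMap.toMatrix'_mulVec _ u
  have hAv : ∀ u, A *ᵥ u = dedA (2 * d) t u := fun u => LinearMap.toMatrix'_mulVec _ u
  have hCv : ∀ u, C *ᵥ u = dedC (2 * d) t u := fun u => LinearMap.toMatrix'_mulVec _ u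
  have hBA : B * A = 0 := by
    apply Matrix.ext_of_mulVec_single
    intro i
    rw [← mulVec_mulVec, hAv, hBv, ded_BA, zero_mulVec]
  have hCA : C * A = 1 := by
    apply Matrix.ext_of_mulVec_single
    intro i
    rw [← mulVec_mulVec, hAv, hCv, ded_CA, one_mulVec]
  have hAC : ∀ u, B *ᵥ u = 0 → A *ᵥ (C *ᵥ u) = u := by
    intro u hu
    rw [hBv] at hu
    rw [hCv, hAv]
    funext p
    rw [ded_AC, hu]
    simp
  -- the section
  let c : K → Fin (2 * d + 1) × K → D := fun j p => (E p.2 j).coeff ((p.1 : ℤ) - d)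
  let s : Matrix (Fin (2 * d + 1) × K) K D[T;T⁻¹] :=
    Matrix.of fun p j => LaurentPolynomial.T (-(d : ℤ)) * cst D (c j p)
  have hs : ∀ j, s *ᵥ Pi.single j 1 = fun p => LaurentPolynomial.T (-(d : ℤ)) * cst D (c j p) := by
    intro j
    rw [mulVec_single_one]
    rfl
  have key : ∀ j, dedB (2 * d + 1) t (fun p => LaurentPolynomial.T (-(d : ℤ)) * cst D (c j p)) =
      fun i => E i j := by
    intro j
    funext i
    rw [dedB_apply]
    apply ext_coeff
    intro m
    rw [AddMonoidAlgebra.coeff_sum, Finsupp.finsetSum_apply]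
    simp only [ht, LaurentPolynomial.T_pow, ded_coeff_T_mul, c]
    have h1 : ∀ (x : D) (k : ℤ), (cst D x).coeff k = if k = 0 then x else 0 := fun x k =>
      LaurentPolynomial.C_apply x k
    simp only [h1]
    by_cases hm : (d : ℤ) < |m|
    · rw [hd (i, j) m hm]
      apply Finset.sum_eq_zero
      intro n _
      rw [if_neg]
      rw [Int.abs_eq_natAbs] at hm
      have := n.2
      omega
    · rw [Int.abs_eq_natAbs] at hm
      rw [Finset.sum_eq_single (⟨(m + d).toNat, by omega⟩ : Fin (2 * d + 1))]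
      · simp only
        rw [if_pos (by omega), Int.toNat_of_nonneg (by omega), add_sub_cancel_right]
      · intro n _ hn
        rw [if_neg]
        intro h2
        apply hn
        apply Fin.ext
        simp only
        omega
      · intro h
        exact absurd (Finset.mem_univ _) h
  have hBs : B * s = E := by
    apply Matrix.ext_of_mulVec_single
    intro j
    rw [← mulVec_mulVec, hs, hBv, key, mulVec_single_one]
    rfl
  have hF0s : F0 * s = s := by
    apply Matrix.ext_of_mulVec_single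
    intro j
    rw [← mulVec_mulVec, fix0, hs]
    intro l
    by_cases hl : l = -(d : ℤ)
    · have h1 : dedCf l (fun p => LaurentPolynomial.T (-(d : ℤ)) * cst D (c j p)) = c j := by
        funext p
        change (LaurentPolynomial.T (-(d : ℤ)) * cst D (c j p)).coeff l = _
        rw [ded_coeff_T_mul, hl, sub_self]
        exact (LaurentPolynomial.C_apply (c j p) 0).trans (if_pos rfl)
      have h2 : dedPsi (2 * d + 1) (c j) = (LaurentPolynomial.T d : D[T;T⁻¹]) • fun i => E i j := by
        rw [← key, ← map_smul, dedPsi]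
        congr 1
        funext p
        rw [Pi.smul_apply, smul_eq_mul, ← mul_assoc, ← LaurentPolynomial.T_add, add_neg_cancel,
          LaurentPolynomial.T_zero, one_mul]
      rw [h1, dedL_apply, h2, mulVec_smul, ← smul_sub]
      have h3 : E *ᵥ (fun i => E i j) = fun i => E i j := by
        conv_rhs => rw [← hE]
        rfl
      rw [h3, sub_self, smul_zero]
    · have h1 : dedCf l (fun p => LaurentPolynomial.T (-(d : ℤ)) * cst D (c j p)) = 0 := by
        funext p
        change (LaurentPolynomial.T (-(d : ℤ)) * cst D (c j p)).coeff l = _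
        rw [ded_coeff_T_mul]
        exact (LaurentPolynomial.C_apply (c j p) _).trans (if_neg (by omega))
      rw [h1, map_zero]
  have hEB : E * B * F0 = B * F0 := by
    apply Matrix.ext_of_mulVec_single
    intro i
    rw [← mulVec_mulVec, ← mulVec_mulVec, ← mulVec_mulVec, hF0, ded_matrix_map_col, hBv]
    have h1 : f₀ *ᵥ (f₀ *ᵥ Pi.single i 1) = f₀ *ᵥ Pi.single i 1 := by rw [mulVec_mulVec, hf₀]
    have h2 := (hf₀' _).1 h1
    rw [dedL_apply, sub_eq_zero] at h2
    exact h2
  have hFA : F0 * A * F1 = A * F1 := by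
    apply Matrix.ext_of_mulVec_single
    intro i
    rw [← mulVec_mulVec, ← mulVec_mulVec, ← mulVec_mulVec]
    rw [fix0]
    have h1 : F1 *ᵥ (F1 *ᵥ Pi.single i 1) = F1 *ᵥ Pi.single i 1 := by rw [mulVec_mulVec, hF1F1]
    have h2 := (fix1 _).1 h1
    intro j
    rw [hAv, dedL_A, h2, h2, smul_zero, sub_zero]
  set q := s * B * F0 with hq
  have hBZ : B * (F0 - q) = 0 := by
    rw [hq, Matrix.mul_sub, ← Matrix.mul_assoc, ← Matrix.mul_assoc, hBs, hEB, sub_self]
  have hFZ : F0 * (F0 - q) = F0 - q := by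
    rw [hq, Matrix.mul_sub, ← Matrix.mul_assoc, ← Matrix.mul_assoc, hF0s, hF0F0]
  have hFC : F1 * (C * (F0 - q)) = C * (F0 - q) := by
    apply Matrix.ext_of_mulVec_single
    intro i
    rw [← mulVec_mulVec, ← mulVec_mulVec, fix1]
    apply ded_good
    rw [← ht, ← hAv, hAC _ (by rw [mulVec_mulVec, hBZ, zero_mulVec]), ← fix0, mulVec_mulVec, hFZ]
  have hACZ : A * (C * (F0 - q)) = F0 - q := by
    apply Matrix.ext_of_mulVec_single
    intro i
    rw [← mulVec_mulVec, ← mulVec_mulVec]
    exact hAC _ (by rw [mulVec_mulVec, hBZ, zero_mulVec])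
  have e1 : B * F0 * (s * E) = E := by
    rw [← Matrix.mul_assoc, Matrix.mul_assoc B, hF0s, hBs, hE]
  have e2 : B * F0 * (A * F1) = 0 := by
    rw [Matrix.mul_assoc B, ← Matrix.mul_assoc F0, hFA, ← Matrix.mul_assoc, hBA, Matrix.zero_mul]
  have e3 : F1 * (C * (F0 - q)) * (s * E) = 0 := by
    have h1 : (F0 - q) * (s * E) = 0 := by
      rw [Matrix.sub_mul, hq]
      simp only [Matrix.mul_assoc]
      rw [← Matrix.mul_assoc F0 s, hF0s, ← Matrix.mul_assoc B s, hBs, hE, sub_self]
    rw [Matrix.mul_assoc F1, Matrix.mul_assoc C, h1, Matrix.mul_zero, Matrix.mul_zero]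
  have e4 : F1 * (C * (F0 - q)) * (A * F1) = F1 := by
    have h1 : (F0 - q) * (A * F1) = A * F1 := by
      rw [Matrix.sub_mul, hq]
      simp only [Matrix.mul_assoc]
      rw [← Matrix.mul_assoc F0 A, hFA, ← Matrix.mul_assoc B A, hBA, Matrix.zero_mul,
        Matrix.mul_zero, sub_zero]
    rw [Matrix.mul_assoc F1, Matrix.mul_assoc C, h1, ← Matrix.mul_assoc C, hCA, Matrix.one_mul,
      hF1F1]
  have e5 : s * E * (B * F0) = q := by
    rw [Matrix.mul_assoc s, ← Matrix.mul_assoc E, hEB, ← Matrix.mul_assoc s]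
  have e6 : A * F1 * (F1 * (C * (F0 - q))) = F0 - q := by
    rw [Matrix.mul_assoc A, ← Matrix.mul_assoc F1 F1, hF1F1, hFC, hACZ]
  refine ⟨fromRows (B * F0) (F1 * (C * (F0 - q))), fromCols (s * E) (A * F1), ?_, ?_⟩
  · rw [fromRows_mul_fromCols, e1, e2, e3, e4]
  · rw [fromCols_mul_fromRows, e5, e6]
    abel

end DedMain

theorem const_dedekind (D : Type u) [CommRing D] [IsDedekindDomain D] : Const D := by
  have main : ∀ a : IdemMat D[T;T⁻¹], ∃ x : K0 D, K0.mk a = K0.map (cst D) x := by
    intro a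
    obtain ⟨N, M, f₀, f₁, h₀, h₁, h⟩ := ded_main a.mat a.idem
    refine ⟨K0.cls f₀ h₀ - K0.cls f₁ h₁, ?_⟩
    rw [map_sub, K0.map_cls, K0.map_cls, eq_sub_iff_add_eq, K0.mk_eq_cls, ← K0.cls_fromBlocks]
    exact K0.cls_congr _ _ h
  intro y
  obtain ⟨a, b, rfl⟩ := K0.exists_sub y
  obtain ⟨x, hx⟩ := main a
  obtain ⟨z, hz⟩ := main b
  rw [hx, hz, ← map_sub, K0.map_map (ev1 D) (cst D), ev1_cst, K0.map_id]
  rfl

end Pool.Agent.H95.KM
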