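import Pool.Agent.H13.TFQ.M24
import Pool.Agent.H13.TFQ.M82

/-!
# Project KM, module DetOne: local and rational trivializations for one cyclic group

Definitions in `Pool/Agent/H95/KM/ThetaDefs.lean`, `Pool/Agent/H95/KM/FouDefs.lean`,
`Pool/Agent/H95/KM/SqDefs.lean`.

`oneChi fL χ = |C|⁻¹ ∑_c χ(c)⁻¹ c ∈ L[C]`, `vL k = ∑_χ t^(k χ) oneChi χ ∈ L[C][t, t⁻¹]`.

* `fou fL C (oneChi fL χ) = Pi.single χ 1` (`fou_eChi`), and `fou fL C` is bijective
  (`fou_injective`, `exists_fou`; `|C| ≠ 0` in `L`).  So the `oneChi χ` are orthogonal idempotents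
  with sum `1`; `vL k * vL k' = vL (k + k')`, `vL 0 = 1`,
  `der (vL k) = ∑_χ single (k χ) (k χ • oneChi χ)`, hence
  `der (vL (-k)) * vL k = cst (- ∑_χ k χ • oneChi χ)`.  `cmp χ (lau fou (vL k)) = single (k χ) 1`.
* `loc_rep` (a general fact about squares): if `(x, y, H)` represents `g` in `Q` and `v ∈ GL_m(𝓜)`
  with `π(v) = g` then `v⁻¹ x = φ(xB)`, `y v = φ(yB)` for matrices `xB`, `yB` over `Γ`, and
  `xB yB = 1`, `yB xB = H`: `π(v⁻¹ x) = g⁻¹ g r(u) = r(u)`, `π(y v) = r(v') g⁻¹ g = r(v')`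
  (`exists_map_of_pi`), and `φ` is injective.
* `det_one`.  Let `(x, y, H)` represent `uN n` in `(sqC id N C).lauSq`.
  Rational part: `F = lau (fou fL C) : L[C][t,t⁻¹] → ((C →* Oˣ) → L)[t,t⁻¹]` is bijective; let
  `xA`, `yA` be the matrices with `F(xA) = image of x`, `F(yA) = image of y` under
  `((C →* Oˣ) → O)[t,t⁻¹] → ((C →* Oˣ) → L)[t,t⁻¹]`.  Then `xA yA = 1`.
  Local part: given `m`, `Om`, `f`, `j` as in `exists_loc`.  There is a morphism of squares
  `sqC id N C → sqC f N C` with `a = MonoidAlgebra.mapRingHom C f`, `b G = f ∘ G`, and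
  `c` induced by the map `O / N → Om / N` (`Ideal.quotientMap`); take Laurent polynomials
  (`lau` of the components) and the image of `(x, y, H)` (`IsRep.map` in
  `Pool/Agent/H95/KM/SqProp.lean`, add this import if you use it, or prove it directly): it
  represents `mapU (lau c) (uN n)`.  Its component at `χ` is
  `∑_{m'} single (n χ m') (c (kappa m')) = single (n χ m) 1` by the last property of `Om`.
  So it is `π(v)` for the `1 × 1` unit `v` over `((C →* Oˣ) → Om)[t,t⁻¹]` with components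
  `single (n χ m) 1`.  `loc_rep` gives `xB`, `yB`.  Finally
  `xB.map (lau (mapRingHom C j)) = vL (-n · m) • xA` because after applying the injective `F` both
  sides are the image of `v⁻¹ x` over `((C →* Oˣ) → L)[t,t⁻¹]` (`fou_mapRing`, `j ∘ f = fL`);
  similarly for `yB`.
-/

set_option autoImplicit false

open Matrix
open scoped LaurentPolynomial

universe u v w

namespace Pool.Agent.H95.KM

open Pool.Agent.H71.FJ

/-- The idempotent `1_χ = |C|⁻¹ ∑_c χ(c)⁻¹ c` of `L[C]`. -/
noncomputable def oneChi {O : Type} [CommRing O] {L : Type} [Field L] (fL : O →+* L)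
    {C : Type v} [Group C] [Fintype C] (χ : C →* Oˣ) : MonoidAlgebra L C :=
  ∑ c : C, MonoidAlgebra.single c ((Fintype.card C : L)⁻¹ * fL (((χ c)⁻¹ : Oˣ) : O))

/-- The unit `∑_χ t^(k χ) 1_χ` of `L[C][t, t⁻¹]`. -/
noncomputable def vL {O : Type} [CommRing O] {L : Type} [Field L] (fL : O →+* L)
    {C : Type v} [Group C] [Fintype C] [Fintype (C →* Oˣ)] (k : (C →* Oˣ) → ℤ) :
    (MonoidAlgebra L C)[T;T⁻¹] :=
  ∑ χ, AddMonoidAlgebra.single (k χ) (oneChi fL χ)

section DetOneAux

variable {X : Type v} [Fintype X] [DecidableEq X]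

/-- The Laurent polynomial with components `t^(k χ)`. -/
noncomputable def detOneW (R : Type*) [CommRing R] (k : X → ℤ) : (X → R)[T;T⁻¹] :=
  ∑ χ, AddMonoidAlgebra.single (k χ) (Pi.single χ 1)

theorem detOne_cmp_W {R : Type*} [CommRing R] (k : X → ℤ) (χ : X) :
    cmp χ (detOneW R k) = AddMonoidAlgebra.single (k χ) 1 := by
  unfold detOneW
  rw [map_sum, Finset.sum_eq_single χ]
  · rw [cmp, lau_single, Pi.evalRingHom_apply, Pi.single_eq_same]
  · intro ψ _ hψ
    rw [cmp, lau_single, Pi.evalRingHom_apply, Pi.single_eq_of_ne (Ne.symm hψ),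
      AddMonoidAlgebra.single_zero]
  · intro h
    exact absurd (Finset.mem_univ _) h

theorem detOne_W_mul {R : Type*} [CommRing R] (k k' : X → ℤ) :
    detOneW R k * detOneW R k' = detOneW R (k + k') := by
  apply cmp_ext
  intro χ
  rw [map_mul, detOne_cmp_W, detOne_cmp_W, detOne_cmp_W, AddMonoidAlgebra.single_mul_single, one_mul]
  rfl

theorem detOne_W_zero {R : Type*} [CommRing R] : detOneW R (0 : X → ℤ) = 1 := by
  apply cmp_ext
  intro χ
  rw [detOne_cmp_W, map_one]
  rfl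

omit [Fintype X] [DecidableEq X] in
theorem detOne_cmp_lau {R : Type*} [CommRing R] {R' : Type*} [CommRing R'] (f : R →+* R') (χ : X)
    (z : (X → R)[T;T⁻¹]) : cmp χ (lau (f.compLeft X) z) = lau f (cmp χ z) := by
  apply ext_coeff
  intro k
  rw [cmp_coeff, lau_coeff, lau_coeff, cmp_coeff]
  rfl

theorem detOne_lau_W {R : Type*} [CommRing R] {R' : Type*} [CommRing R'] (f : R →+* R') (k : X → ℤ) :
    lau (f.compLeft X) (detOneW R k) = detOneW R' k := by
  apply cmp_ext
  intro χ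
  rw [detOne_cmp_lau, detOne_cmp_W, detOne_cmp_W, lau_single, map_one]

end DetOneAux

section

variable {O : Type} [CommRing O] [IsDomain O] [CharZero O] {N : ℕ} [NeZero N]
  [HasEnoughRootsOfUnity O N] [Finite (Amod O N)] {L : Type} [Field L] [CharZero L]
  (fL : O →+* L) {C : Type v} [Group C] [Fintype C] [Fintype (C →* Oˣ)]
  (hC : ∀ a b : C, a * b = b * a) (hN : Nat.card C ∣ N)

omit [CharZero O] [Fintype (C →* Oˣ)] in
theorem detOne_fou_oneChi [DecidableEq (C →* Oˣ)] (χ : C →* Oˣ) :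
    fou fL C (oneChi fL χ) = Pi.single χ 1 := by
  have h1 : oneChi fL χ = MonoidAlgebra.single 1 ((Fintype.card C : L)⁻¹) * eChi fL χ := by
    unfold oneChi eChi
    rw [Finset.mul_sum]
    apply Finset.sum_congr rfl
    intro c _
    rw [MonoidAlgebra.single_mul_single, one_mul]
  have hcard : (Fintype.card C : L) ≠ 0 := by
    exact_mod_cast Fintype.card_ne_zero
  rw [h1, map_mul, fou_eChi]
  funext ψ
  rw [Pi.mul_apply, fou_single, map_one, Units.val_one, map_one, mul_one]
  by_cases h : ψ = χ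
  · subst h
    rw [Pi.single_eq_same, Pi.single_eq_same, inv_mul_cancel₀ hcard]
  · rw [Pi.single_eq_of_ne h, Pi.single_eq_of_ne h, mul_zero]

omit [CharZero O] in
theorem detOne_fou_vL [DecidableEq (C →* Oˣ)] (k : (C →* Oˣ) → ℤ) :
    lau (fou fL C) (vL fL k) = detOneW L k := by
  unfold vL detOneW
  rw [map_sum]
  apply Finset.sum_congr rfl
  intro χ _
  rw [lau_single, detOne_fou_oneChi]

include hC hN

omit [CharZero O] [Fintype (C →* Oˣ)] [Finite (Amod O N)] in
theorem detOne_inj : Function.Injective (fou fL C) := by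
  apply fou_injective fL N hC hN
  intro r hr
  rcases mul_eq_zero.1 hr with h | h
  · exact absurd h (by exact_mod_cast Nat.card_pos.ne')
  · exact h

omit [CharZero O] [Finite (Amod O N)] in
theorem vL_mul (k k' : (C →* Oˣ) → ℤ) : vL fL k * vL fL k' = vL fL (k + k') := by
  classical
  apply lau_injective (detOne_inj fL hC hN)
  rw [map_mul, detOne_fou_vL, detOne_fou_vL, detOne_fou_vL, detOne_W_mul]

omit [CharZero O] [Finite (Amod O N)] in
theorem vL_zero : vL fL (0 : (C →* Oˣ) → ℤ) = 1 := by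
  classical
  apply lau_injective (detOne_inj fL hC hN)
  rw [map_one, detOne_fou_vL, detOne_W_zero]

omit [CharZero O] [Finite (Amod O N)] in
theorem der_vL (k : (C →* Oˣ) → ℤ) :
    der _ (vL fL (-k)) * vL fL k = cst _ (- ∑ χ, k χ • oneChi fL χ) := by
  classical
  apply lau_injective (detOne_inj fL hC hN)
  rw [map_mul, lau_der, detOne_fou_vL, detOne_fou_vL]
  apply cmp_ext
  intro χ
  rw [map_mul, cmp, lau_der]
  have e1 : lau (Pi.evalRingHom (fun _ : (C →* Oˣ) => L) χ) (detOneW L (-k)) =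
      AddMonoidAlgebra.single ((-k) χ) 1 := detOne_cmp_W (-k) χ
  have e2 : lau (Pi.evalRingHom (fun _ : (C →* Oˣ) => L) χ) (detOneW L k) =
      AddMonoidAlgebra.single (k χ) 1 := detOne_cmp_W k χ
  rw [e1, e2, der_single, AddMonoidAlgebra.single_mul_single, mul_one, cst_apply, lau_single,
    lau_single, map_neg, map_sum, Pi.evalRingHom_apply, Pi.neg_apply, Pi.neg_apply, Finset.sum_apply]
  have e3 : ∑ ψ, (fou fL C) (k ψ • oneChi fL ψ) χ = k χ • (1 : L) := by
    rw [Finset.sum_eq_single χ]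
    · rw [map_zsmul, detOne_fou_oneChi, Pi.smul_apply, Pi.single_eq_same]
    · intro ψ _ hψ
      rw [map_zsmul, detOne_fou_oneChi, Pi.smul_apply, Pi.single_eq_of_ne (Ne.symm hψ), smul_zero]
    · intro h
      exact absurd (Finset.mem_univ _) h
  rw [e3, neg_add_cancel, neg_smul]

end

namespace Sq

variable {Γ : Type u} {𝓜 : Type v} {B : Type w} [Ring Γ] [Ring 𝓜] [Ring B] {Q : Sq Γ 𝓜 B}

theorem loc_rep {m n : Type} [Fintype m] [DecidableEq m] [Fintype n] [DecidableEq n]
    {g : (Matrix m m B)ˣ} {x : Matrix m n 𝓜} {y : Matrix n m 𝓜} {H : Matrix n n Γ}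
    (h : Q.IsRep g x y H) (v v' : Matrix m m 𝓜) (hvv' : v * v' = 1) (hv'v : v' * v = 1)
    (hv : v.map Q.π = (g : Matrix m m B)) :
    ∃ (xB : Matrix m n Γ) (yB : Matrix n m Γ), xB.map Q.φ = v' * x ∧ yB.map Q.φ = y * v ∧
      xB * yB = 1 ∧ yB * xB = H := by
  obtain ⟨h1, h2, ⟨u, hu⟩, ⟨w, hw⟩⟩ := h
  have e1 : v'.map Q.π * (g : Matrix m m B) = 1 := by
    rw [← hv, ← Matrix.map_mul, hv'v, Matrix.map_one _ (map_zero Q.π) (map_one Q.π)]
  obtain ⟨xB, hxB⟩ := exists_map_of_pi (Q := Q) (v' * x) ⟨u, by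
    rw [Matrix.map_mul, hu, ← Matrix.mul_assoc, e1, Matrix.one_mul]⟩
  obtain ⟨yB, hyB⟩ := exists_map_of_pi (Q := Q) (y * v) ⟨w, by
    rw [Matrix.map_mul, hw, hv, Matrix.mul_assoc, Units.inv_mul, Matrix.mul_one]⟩
  refine ⟨xB, yB, hxB, hyB, ?_, ?_⟩
  · apply matrix_map_injective Q.inj
    rw [Matrix.map_mul, hxB, hyB, Matrix.mul_assoc, ← Matrix.mul_assoc x, h1, Matrix.one_mul, hv'v,
      Matrix.map_one _ (map_zero Q.φ) (map_one Q.φ)]
  · apply matrix_map_injective Q.inj
    rw [Matrix.map_mul, hxB, hyB, Matrix.mul_assoc, ← Matrix.mul_assoc v, hvv', Matrix.one_mul, h2]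

end Sq

theorem detOne_fou_comp {O : Type} [CommRing O] {R : Type} [CommRing R] {R' : Type} [CommRing R']
    (f : O →+* R) (g : R →+* R') (h : O →+* R') (hgf : g.comp f = h) (C : Type v) [Group C] :
    (fou h C).comp (MonoidAlgebra.mapRingHom C g) = (g.compLeft (C →* Oˣ)).comp (fou f C) := by
  subst hgf
  apply RingHom.ext
  intro x
  funext χ
  exact fou_mapRing f g x χ

theorem detOne_N_le {O : Type} [CommRing O] (N : ℕ) {R : Type} [CommRing R] (f : O →+* R) :
    Ideal.span {(N : O)} ≤ (Ideal.span {(N : R)}).comap f := by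
  rw [Ideal.span_singleton_le_iff_mem, Ideal.mem_comap, map_natCast]
  exact Ideal.mem_span_singleton_self _

/-- The morphism of squares given by a map of coefficient rings. -/
noncomputable def detOneHom {O : Type} [CommRing O] [IsDomain O] [CharZero O] (N : ℕ) [NeZero N]
    [HasEnoughRootsOfUnity O N] {Om : Type} [CommRing Om] [IsDomain Om] [CharZero Om] (f : O →+* Om)
    (C : Type v) [Group C] [Finite C] (hC : ∀ a b : C, a * b = b * a) (hN : Nat.card C ∣ N) :
    SqHom (sqC (RingHom.id O) N C hC hN).lauSq (sqC f N C hC hN).lauSq where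
  a := lau (MonoidAlgebra.mapRingHom C f)
  b := lau (f.compLeft (C →* Oˣ))
  c := lau ((Ideal.quotientMap (Ideal.span {(N : Om)}) f (detOne_N_le N f)).compLeft (C →* Oˣ))
  hφ := by
    intro x
    change lau (f.compLeft (C →* Oˣ)) (lau (fou (RingHom.id O) C) x) =
      lau (fou f C) (lau (MonoidAlgebra.mapRingHom C f) x)
    rw [← RingHom.comp_apply, ← lau_comp, ← RingHom.comp_apply, ← lau_comp,
      detOne_fou_comp (RingHom.id O) f f (RingHom.comp_id f) C]
  hπ := by
    intro x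
    change lau ((Ideal.quotientMap (Ideal.span {(N : Om)}) f (detOne_N_le N f)).compLeft (C →* Oˣ))
      (lau (sqC (RingHom.id O) N C hC hN).π x) = lau (sqC f N C hC hN).π (lau (f.compLeft (C →* Oˣ)) x)
    rw [← RingHom.comp_apply, ← lau_comp, ← RingHom.comp_apply, ← lau_comp]
    congr 2

end Pool.Agent.H95.KM
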