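import Mathlib

/-!
# Project KM: Milnor squares, definitions

A square `Q : Sq Γ 𝓜 B` consists of an injective ring homomorphism `φ : Γ → 𝓜` and a surjective ring
homomorphism `π : 𝓜 → B` with `ker π ⊆ φ(Γ)`.  The connecting homomorphism attaches to a unit `g` of
`Mat_m(B)` a class `dl g ∈ K₀(Γ)`.
-/

set_option autoImplicit false

open Matrix
open scoped LaurentPolynomial

universe u v w u' v' w'

namespace Pool.Agent.H95.KM

/-- Milnor square data. -/
structure Sq (Γ : Type u) (𝓜 : Type v) (B : Type w) [Ring Γ] [Ring 𝓜] [Ring B] where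
  /-- the inclusion -/
  φ : Γ →+* 𝓜
  /-- the projection -/
  π : 𝓜 →+* B
  inj : Function.Injective φ
  surj : Function.Surjective π
  ker : ∀ z, π z = 0 → ∃ g, φ g = z

/-- image of a unit matrix under a ring homomorphism -/
def mapU {B : Type u} [Ring B] {B' : Type v} [Ring B'] (c : B →+* B') {m : Type} [Fintype m]
    [DecidableEq m] (g : (Matrix m m B)ˣ) : (Matrix m m B')ˣ where
  val := (g : Matrix m m B).map c
  inv := ((g⁻¹ : (Matrix m m B)ˣ) : Matrix m m B).map c
  val_inv := by rw [← Matrix.map_mul, Units.mul_inv, Matrix.map_one _ (map_zero c) (map_one c)]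
  inv_val := by rw [← Matrix.map_mul, Units.inv_mul, Matrix.map_one _ (map_zero c) (map_one c)]

/-- block sum of units -/
def blk {B : Type u} [Ring B] {m n : Type} [Fintype m] [DecidableEq m] [Fintype n]
    [DecidableEq n] (g : (Matrix m m B)ˣ) (h : (Matrix n n B)ˣ) :
    (Matrix (m ⊕ n) (m ⊕ n) B)ˣ where
  val := fromBlocks g 0 0 h
  inv := fromBlocks (g⁻¹ : (Matrix m m B)ˣ) 0 0 (h⁻¹ : (Matrix n n B)ˣ)
  val_inv := by simp [fromBlocks_multiply]
  inv_val := by simp [fromBlocks_multiply]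

/-- reindexing of a unit -/
def rei {B : Type u} [Ring B] {m n : Type} [Fintype m] [DecidableEq m] [Fintype n]
    [DecidableEq n] (σ : n ≃ m) (g : (Matrix m m B)ˣ) : (Matrix n n B)ˣ where
  val := (g : Matrix m m B).submatrix σ σ
  inv := ((g⁻¹ : (Matrix m m B)ˣ) : Matrix m m B).submatrix σ σ
  val_inv := by rw [submatrix_mul_equiv, Units.mul_inv, submatrix_one_equiv]
  inv_val := by rw [submatrix_mul_equiv, Units.inv_mul, submatrix_one_equiv]

/-- A family of homomorphisms `GL_m(Λ) → M` compatible with block sums and reindexing. -/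
structure StabHom (Λ : Type u) [Ring Λ] (M : Type v) [AddCommGroup M] where
  /-- the homomorphisms -/
  D : ∀ {m : Type} [Fintype m] [DecidableEq m], (Matrix m m Λ)ˣ → M
  map_mul : ∀ {m : Type} [Fintype m] [DecidableEq m] (g h : (Matrix m m Λ)ˣ),
    D (g * h) = D g + D h
  map_blk : ∀ {m n : Type} [Fintype m] [DecidableEq m] [Fintype n] [DecidableEq n]
    (g : (Matrix m m Λ)ˣ) (h : (Matrix n n Λ)ˣ), D (blk g h) = D g + D h
  map_rei : ∀ {m n : Type} [Fintype m] [DecidableEq m] [Fintype n] [DecidableEq n]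
    (σ : n ≃ m) (g : (Matrix m m Λ)ˣ), D (rei σ g) = D g

namespace StabHom

variable {Λ : Type u} [Ring Λ] {M : Type v} [AddCommGroup M] (Δ : StabHom Λ M)

theorem map_one {m : Type} [Fintype m] [DecidableEq m] : Δ.D (1 : (Matrix m m Λ)ˣ) = 0 := by
  have := Δ.map_mul (1 : (Matrix m m Λ)ˣ) 1
  rw [one_mul] at this
  simpa using this

theorem map_inv {m : Type} [Fintype m] [DecidableEq m] (g : (Matrix m m Λ)ˣ) :
    Δ.D g⁻¹ = - Δ.D g := by
  rw [eq_neg_iff_add_eq_zero, ← Δ.map_mul, inv_mul_cancel, Δ.map_one]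

end StabHom

namespace Sq

variable {Γ : Type u} {𝓜 : Type v} {B : Type w} [Ring Γ] [Ring 𝓜] [Ring B] (Q : Sq Γ 𝓜 B)

/-- `(x, y, H)` represents the unit `g`: `x y = 1`, `y x = φ(H)`, `π(x) = g · πφ(u)`,
`π(y) = πφ(v) · g⁻¹`. -/
def IsRep {m n : Type} [Fintype m] [DecidableEq m] [Fintype n] (g : (Matrix m m B)ˣ)
    (x : Matrix m n 𝓜) (y : Matrix n m 𝓜) (H : Matrix n n Γ) : Prop :=
  x * y = 1 ∧ y * x = H.map Q.φ ∧
  (∃ u : Matrix m n Γ, x.map Q.π = (g : Matrix m m B) * u.map (Q.π.comp Q.φ)) ∧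
  (∃ v : Matrix n m Γ, y.map Q.π = v.map (Q.π.comp Q.φ) * ((g⁻¹ : (Matrix m m B)ˣ) :
    Matrix m m B))

variable {Q}

variable (Q)

theorem exists_isRep_aux {m : Type} [Fintype m] [DecidableEq m] (g : Matrix m m B)
    (A₁ A₂ : Matrix m m 𝓜) (h₁ : A₁.map Q.π = g) (h₂ : A₂.map Q.π = 0) :
    (fromCols A₁ A₂).map Q.π =
      g * (fromCols (1 : Matrix m m Γ) 0).map (Q.π.comp Q.φ) := by
  ext i j
  rcases j with j | j
  · have := congrFun (congrFun h₁ i) j
    simp only [Matrix.map_apply] at this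
    simp [Matrix.mul_apply, Matrix.one_apply, this]
  · have := congrFun (congrFun h₂ i) j
    simp only [Matrix.map_apply] at this
    simp [Matrix.mul_apply, this]

theorem exists_isRep_aux' {m : Type} [Fintype m] [DecidableEq m] (g : Matrix m m B)
    (A₁ A₂ : Matrix m m 𝓜) (h₁ : A₁.map Q.π = g) (h₂ : A₂.map Q.π = 0) :
    (fromRows A₁ A₂).map Q.π =
      (fromRows (1 : Matrix m m Γ) 0).map (Q.π.comp Q.φ) * g := by
  ext i j
  rcases i with i | i
  · have := congrFun (congrFun h₁ i) j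
    simp only [Matrix.map_apply] at this
    simp [Matrix.mul_apply, Matrix.one_apply, this]
  · have := congrFun (congrFun h₂ i) j
    simp only [Matrix.map_apply] at this
    simp [Matrix.mul_apply, this]

variable {Q}

variable (Q)

/-- The square of polynomial rings. -/
noncomputable def polySq : Sq (Polynomial Γ) (Polynomial 𝓜) (Polynomial B) where
  φ := Polynomial.mapRingHom Q.φ
  π := Polynomial.mapRingHom Q.π
  inj := Polynomial.map_injective Q.φ Q.inj
  surj := Polynomial.map_surjective Q.π Q.surj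
  ker z hz := by
    have h : ∀ k, ∃ g, Q.φ g = z.coeff k := by
      intro k
      apply Q.ker
      have := congrArg (fun p => Polynomial.coeff p k) hz
      simpa using this
    choose g hg using h
    refine ⟨∑ k ∈ z.support, Polynomial.monomial k (g k), ?_⟩
    rw [map_sum]
    conv_rhs => rw [Polynomial.as_sum_support z]
    apply Finset.sum_congr rfl
    intro k _
    rw [Polynomial.coe_mapRingHom, Polynomial.map_monomial, hg]

end Sq

/-- A morphism of squares. -/
structure SqHom {Γ : Type u} {𝓜 : Type v} {B : Type w} [Ring Γ] [Ring 𝓜] [Ring B]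
    (Q : Sq Γ 𝓜 B) {Γ' : Type u'} {𝓜' : Type v'} {B' : Type w'} [Ring Γ'] [Ring 𝓜'] [Ring B']
    (Q' : Sq Γ' 𝓜' B') where
  /-- component -/
  a : Γ →+* Γ'
  /-- component -/
  b : 𝓜 →+* 𝓜'
  /-- component -/
  c : B →+* B'
  hφ : ∀ x, b (Q.φ x) = Q'.φ (a x)
  hπ : ∀ x, c (Q.π x) = Q'.π (b x)

end Pool.Agent.H95.KM
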