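import Pool.Agent.H13.TFQ.H71.FJ.K0_1
import Pool.Agent.H13.TFQ.M74
import Pool.Agent.H13.TFQ.M75

/-!
# Project KM, module SqProp: properties of the connecting homomorphism

All definitions are in `Pool/Agent/H95/KM/SqDefs.lean`.  `Q.dl g = [H] - [1_m]` for any
representation `IsRep g x y H` (`Sq.dl_eq`).  Let `r = πφ : Γ → B` below.

* `dl_lift` (`h = π(U) g`, `U ∈ GL_m(𝓜)`): if `(x, y, H)` represents `g` (`exists_isRep`) then
  `(U x, y U⁻¹, H)` represents `h` (same `u`, `v`): `π(U x) = π(U) g r(u) = h r(u)`,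
  `π(y U⁻¹) = r(v) g⁻¹ π(U)⁻¹ = r(v) h⁻¹`.
* `dl_base` (`h = g r(V)`, `r(V) r(V') = r(V') r(V) = 1`): the same `(x, y, H)` represents `h` with
  `u' = V' u`, `v' = v V`.
* `dl_one`: `(1, 1, 1)` represents `1` (`u = v = 1`).
* `dl_blk`: if `(x, y, H)` represents `g` and `(x', y', H')` represents `g'` then
  `(x ⊕ x', y ⊕ y', H ⊕ H')` (block diagonal, `fromBlocks x 0 0 x'` etc.) represents `blk g g'`;
  `K0.cls_fromBlocks`, and `[1_{m ⊕ n}] = [1_m] + [1_n]`.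
* `dl_rei`: reindexing `m`: `(x.submatrix σ id, y.submatrix id σ, H)` represents `rei σ g`; and
  `[1_m] = [1_n]` (`K0.matEquiv_one_one`).
* `dl_mul`: by `dl_blk`, `dl_one` it suffices that `dl (blk (g g') 1) = dl (blk g g')`.
  Let `a, b` be matrices over `𝓜` with `π(a) = g`, `π(b) = g⁻¹`.  Let
  `E₁₂(z) = [[1, z], [0, 1]]`, `E₂₁(z) = [[1, 0], [z, 1]]` (invertible over `𝓜`) and
  `U = E₁₂(a) E₂₁(-b) E₁₂(a) ∈ GL_{m ⊕ m}(𝓜)`; then `π(U) = [[0, g], [-g⁻¹, 0]]`.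
  Let `S = [[0, 1], [-1, 0]]`, `S⁻¹ = [[0, -1], [1, 0]]` over `Γ`.
  `π(U) · diag(g, g') · r(S⁻¹) = [[0, g g'], [-1, 0]] · [[0, -1], [1, 0]] = diag(g g', 1)`.
  Now use `dl_lift` and `dl_base`.
* `dl_map`: if `(x, y, H)` represents `g` then `(b x, b y, a H)` represents `c g`.
-/

set_option autoImplicit false

open Matrix
open scoped LaurentPolynomial

universe u v w u' v' w'

namespace Pool.Agent.H95.KM

open Pool.Agent.H71.FJ

namespace Sq

variable {Γ : Type u} {𝓜 : Type v} {B : Type w} [Ring Γ] [Ring 𝓜] [Ring B] (Q : Sq Γ 𝓜 B)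

theorem dl_lift {m : Type} [Fintype m] [DecidableEq m] (U : (Matrix m m 𝓜)ˣ)
    (g h : (Matrix m m B)ˣ)
    (hU : (h : Matrix m m B) = (U : Matrix m m 𝓜).map Q.π * (g : Matrix m m B)) :
    Q.dl h = Q.dl g := by
  obtain ⟨x, y, H, hr⟩ := Q.exists_isRep g
  have hh : h = mapU Q.π U * g := Units.ext hU
  subst hh
  rw [dl_eq (hr.lift U), dl_eq hr]

theorem dl_base {m : Type} [Fintype m] [DecidableEq m] (V V' : Matrix m m Γ)
    (g h : (Matrix m m B)ˣ)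
    (h1 : V.map (Q.π.comp Q.φ) * V'.map (Q.π.comp Q.φ) = 1)
    (h2 : V'.map (Q.π.comp Q.φ) * V.map (Q.π.comp Q.φ) = 1)
    (hV : (h : Matrix m m B) = (g : Matrix m m B) * V.map (Q.π.comp Q.φ)) :
    Q.dl h = Q.dl g := by
  obtain ⟨x, y, H, hr⟩ := Q.exists_isRep g
  have hh : h = g * (⟨V.map (Q.π.comp Q.φ), V'.map (Q.π.comp Q.φ), h1, h2⟩ :
      (Matrix m m B)ˣ) := Units.ext hV
  have hr' : Q.IsRep h x y H := by
    obtain ⟨a1, a2, ⟨u, a3⟩, ⟨v, a4⟩⟩ := hr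
    refine ⟨a1, a2, ⟨V' * u, ?_⟩, ⟨v * V, ?_⟩⟩
    · rw [a3, hV, Matrix.map_mul, Matrix.mul_assoc, ← Matrix.mul_assoc (V.map _), h1,
        Matrix.one_mul]
    · rw [a4, hh, _root_.mul_inv_rev, Matrix.map_mul]
      change _ = v.map _ * V.map _ * (V'.map (Q.π.comp Q.φ) *
        ((g⁻¹ : (Matrix m m B)ˣ) : Matrix m m B))
      rw [Matrix.mul_assoc, ← Matrix.mul_assoc (V.map _), h1, Matrix.one_mul]
  rw [dl_eq hr', dl_eq hr]

theorem dl_one {m : Type} [Fintype m] [DecidableEq m] :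
    Q.dl (1 : (Matrix m m B)ˣ) = 0 := by
  rw [dl_eq (Q.isRep_one (m := m)), sub_self]

theorem cls_one_sum {m n : Type} [Fintype m] [DecidableEq m] [Fintype n] [DecidableEq n] :
    K0.cls (1 : Matrix (m ⊕ n) (m ⊕ n) Γ) one_idem =
      K0.cls (1 : Matrix m m Γ) one_idem + K0.cls (1 : Matrix n n Γ) one_idem := by
  rw [← K0.cls_fromBlocks]
  congr 1
  exact fromBlocks_one.symm

theorem dl_blk {m n : Type} [Fintype m] [DecidableEq m] [Fintype n] [DecidableEq n]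
    (g : (Matrix m m B)ˣ) (h : (Matrix n n B)ˣ) : Q.dl (blk g h) = Q.dl g + Q.dl h := by
  obtain ⟨x, y, H, hr⟩ := Q.exists_isRep g
  obtain ⟨x', y', H', hr'⟩ := Q.exists_isRep h
  rw [dl_eq (hr.blk hr'), dl_eq hr, dl_eq hr', cls_one_sum]
  have := K0.cls_fromBlocks hr.idem hr'.idem
  rw [this]
  abel

theorem dl_rei {m n : Type} [Fintype m] [DecidableEq m] [Fintype n] [DecidableEq n]
    (σ : n ≃ m) (g : (Matrix m m B)ˣ) : Q.dl (rei σ g) = Q.dl g := by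
  obtain ⟨x, y, H, hr⟩ := Q.exists_isRep g
  have hr' : Q.IsRep (rei σ g) (x.submatrix σ id) (y.submatrix id σ) H := by
    obtain ⟨h1, h2, ⟨u, h3⟩, ⟨v, h4⟩⟩ := hr
    refine ⟨?_, ?_, ⟨u.submatrix σ id, ?_⟩, ⟨v.submatrix id σ, ?_⟩⟩
    · have := submatrix_mul_equiv x y (⇑σ) (Equiv.refl _) (⇑σ)
      rw [h1] at this
      simpa using this
    · rw [submatrix_mul_equiv, h2, submatrix_id_id]
    · have e0 : ((rei σ g : (Matrix n n B)ˣ) : Matrix n n B)
          = (g : Matrix m m B).submatrix σ σ := rfl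
      have e1 : (x.submatrix σ id).map Q.π = (x.map Q.π).submatrix σ id := rfl
      have e2 : (u.submatrix σ id).map (Q.π.comp Q.φ)
        = (u.map (Q.π.comp Q.φ)).submatrix σ id := rfl
      rw [e0, e1, e2, h3, submatrix_mul_equiv]
    · have e0 : (((rei σ g)⁻¹ : (Matrix n n B)ˣ) : Matrix n n B)
          = ((g⁻¹ : (Matrix m m B)ˣ) : Matrix m m B).submatrix σ σ := rfl
      have e1 : (y.submatrix id σ).map Q.π = (y.map Q.π).submatrix id σ := rfl
      have e2 : (v.submatrix id σ).map (Q.π.comp Q.φ)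
        = (v.map (Q.π.comp Q.φ)).submatrix id σ := rfl
      rw [e0, e1, e2, h4, submatrix_mul_equiv]
  rw [dl_eq hr', dl_eq hr]
  congr 1
  apply K0.cls_congr
  have := K0.matEquiv_submatrix (1 : Matrix m m Γ) one_idem σ
  rwa [submatrix_one_equiv] at this

theorem dl_mul {m : Type} [Fintype m] [DecidableEq m] (g h : (Matrix m m B)ˣ) :
    Q.dl (g * h) = Q.dl g + Q.dl h := by
  suffices hs : Q.dl (blk (g * h) (1 : (Matrix m m B)ˣ)) = Q.dl (blk g h) by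
    rw [dl_blk, dl_blk, dl_one, add_zero] at hs
    exact hs
  obtain ⟨a, ha⟩ := exists_matrix_lift Q.π (g : Matrix m m B) (fun i j => Q.surj _)
  obtain ⟨b, hb⟩ := exists_matrix_lift Q.π ((g⁻¹ : (Matrix m m B)ˣ) : Matrix m m B)
    (fun i j => Q.surj _)
  let E12 : (Matrix (m ⊕ m) (m ⊕ m) 𝓜)ˣ :=
    { val := fromBlocks 1 a 0 1
      inv := fromBlocks 1 (-a) 0 1
      val_inv := by rw [fromBlocks_multiply]; simp
      inv_val := by rw [fromBlocks_multiply]; simp }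
  let E21 : (Matrix (m ⊕ m) (m ⊕ m) 𝓜)ˣ :=
    { val := fromBlocks 1 0 (-b) 1
      inv := fromBlocks 1 0 b 1
      val_inv := by rw [fromBlocks_multiply]; simp
      inv_val := by rw [fromBlocks_multiply]; simp }
  let U := E12 * E21 * E12
  have hU : (U : Matrix (m ⊕ m) (m ⊕ m) 𝓜).map Q.π
      = fromBlocks 0 (g : Matrix m m B) (-((g⁻¹ : (Matrix m m B)ˣ) : Matrix m m B)) 0 := by
    have e1 : (fromBlocks 1 a 0 1 : Matrix (m ⊕ m) (m ⊕ m) 𝓜).map Q.π
        = fromBlocks 1 (g : Matrix m m B) 0 1 := by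
      rw [fromBlocks_map, ha]
      simp [Matrix.map_zero, Matrix.map_one]
    have e2 : (fromBlocks 1 0 (-b) 1 : Matrix (m ⊕ m) (m ⊕ m) 𝓜).map Q.π
        = fromBlocks 1 0 (-((g⁻¹ : (Matrix m m B)ˣ) : Matrix m m B)) 1 := by
      rw [fromBlocks_map]
      have e3 : (-b).map Q.π = -(b.map Q.π) := by
        ext i j
        simp
      rw [e3, hb]
      simp [Matrix.map_zero, Matrix.map_one]
    change (fromBlocks 1 a 0 1 * fromBlocks 1 0 (-b) 1 * fromBlocks 1 a 0 1 :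
      Matrix (m ⊕ m) (m ⊕ m) 𝓜).map Q.π = _
    rw [Matrix.map_mul, Matrix.map_mul, e1, e2, fromBlocks_multiply, fromBlocks_multiply]
    simp
  let S : Matrix (m ⊕ m) (m ⊕ m) Γ := fromBlocks 0 (-1) 1 0
  let S' : Matrix (m ⊕ m) (m ⊕ m) Γ := fromBlocks 0 1 (-1) 0
  have hneg : ((-1 : Matrix m m Γ)).map (Q.π.comp Q.φ) = -1 := by
    ext i j
    by_cases hij : i = j
    · subst hij; simp
    · simp [hij]
  have hone : ((1 : Matrix m m Γ)).map (Q.π.comp Q.φ) = 1 :=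
    Matrix.map_one _ (map_zero _) (map_one _)
  have hzero : ((0 : Matrix m m Γ)).map (Q.π.comp Q.φ) = 0 := Matrix.map_zero _ (map_zero _)
  have hS : S.map (Q.π.comp Q.φ) = fromBlocks 0 (-1) 1 0 := by
    rw [fromBlocks_map, hneg, hone, hzero]
  have hS' : S'.map (Q.π.comp Q.φ) = fromBlocks 0 1 (-1) 0 := by
    rw [fromBlocks_map, hneg, hone, hzero]
  have hSS' : S.map (Q.π.comp Q.φ) * S'.map (Q.π.comp Q.φ) = 1 := by
    rw [hS, hS', fromBlocks_multiply]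
    simp
  have hS'S : S'.map (Q.π.comp Q.φ) * S.map (Q.π.comp Q.φ) = 1 := by
    rw [hS, hS', fromBlocks_multiply]
    simp
  have h1 := Q.dl_lift U (blk g h) (mapU Q.π U * blk g h) rfl
  rw [← h1]
  refine Q.dl_base S S' (mapU Q.π U * blk g h) (blk (g * h) 1) hSS' hS'S ?_
  change fromBlocks ((g * h : (Matrix m m B)ˣ) : Matrix m m B) 0 0 ((1 : (Matrix m m B)ˣ) :
    Matrix m m B) = (U : Matrix (m ⊕ m) (m ⊕ m) 𝓜).map Q.π *
      fromBlocks (g : Matrix m m B) 0 0 (h : Matrix m m B) * S.map (Q.π.comp Q.φ)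
  rw [hU, hS, fromBlocks_multiply, fromBlocks_multiply]
  simp

variable {Q}
variable {Γ' : Type u'} {𝓜' : Type v'} {B' : Type w'} [Ring Γ'] [Ring 𝓜'] [Ring B']
  {Q' : Sq Γ' 𝓜' B'}

theorem dl_map (F : SqHom Q Q') {m : Type} [Fintype m] [DecidableEq m]
    (g : (Matrix m m B)ˣ) : Q'.dl (mapU F.c g) = K0.map F.a (Q.dl g) := by
  obtain ⟨x, y, H, hr⟩ := Q.exists_isRep g
  rw [dl_eq (hr.map F), dl_eq hr, map_sub, K0.map_cls, K0.map_cls]
  congr 2
  exact (Matrix.map_one _ (map_zero _) (map_one _)).symm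

end Sq

end Pool.Agent.H95.KM
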